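import Pool.Agent.H735.PU.Defs

/-!
Basic lemmas about unions of patterns.
-/

namespace Pool.Agent.H735.PU

open Set Filter

variable {ι : Type}

theorem apart_unique {c : ℕ → ℕ} (hc : Monotone c) {F : Set (ι × Hull)}
    (hF : Apart c F) {h h' : ι × Hull} (hh : h ∈ F) (hh' : h' ∈ F) {n m : ℕ} (hm : m ≤ c n)
    (h1 : h.2.a < m) (h2 : n < h.2.b) (h3 : h'.2.a < m) (h4 : n < h'.2.b) : h = h' := by
  by_contra hne
  rcases hF h hh h' hh' hne with h5 | h5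
  · have : c n ≤ c (h.2.b + 1) := hc (by omega)
    omega
  · have : c n ≤ c (h'.2.b + 1) := hc (by omega)
    omega

/-- Two hulls of `F` which contain a common point are equal. -/
theorem apart_eq {c : ℕ → ℕ} (hle : ∀ n, n ≤ c n) {F : Set (ι × Hull)}
    (hF : Apart c F) {h h' : ι × Hull} (hh : h ∈ F) (hh' : h' ∈ F) {j : ℕ}
    (h1 : h.2.a ≤ j) (h2 : j ≤ h.2.b) (h3 : h'.2.a ≤ j) (h4 : j ≤ h'.2.b) : h = h' := by
  by_contra hne
  rcases hF h hh h' hh' hne with h5 | h5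
  · have := hle (h.2.b + 1)
    omega
  · have := hle (h'.2.b + 1)
    omega

theorem mem_UU_iff {c : ℕ → ℕ} (hle : ∀ n, n ≤ c n) {F : Set (ι × Hull)}
    (hF : Apart c F) (hok : ∀ h ∈ F, h.2.Ok) {I : ℕ → ℕ} (hI : ∀ h ∈ F, I h.2.a < 2 ^ h.2.a)
    {h : ι × Hull} (hh : h ∈ F) {j : ℕ} (h1 : h.2.a ≤ j) (h2 : j ≤ h.2.b) :
    j ∈ UU F I ↔ j ∈ h.2.pat (I h.2.a) := by
  constructor
  · rintro ⟨h', hh', hj⟩
    have h3 := Hull.a_le_of_pat (hok h' hh') hj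
    have h4 := Hull.lt_b_of_pat (hok h' hh') (hI h' hh') hj
    have := apart_eq hle hF hh hh' h1 h2 h3 h4.le
    rw [this]
    exact hj
  · intro hj
    exact ⟨h, hh, hj⟩

/-- Only finitely many hulls start before a given point; if `F` is unbounded then all hulls which
end late start late. -/
theorem exists_tail {c : ℕ → ℕ} (hle : ∀ n, n ≤ c n) {F : Set (ι × Hull)}
    (hF : Apart c F) (hok : ∀ h ∈ F, h.2.Ok) (hub : ∀ N, ∃ h ∈ F, N ≤ h.2.a) (N : ℕ) :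
    ∃ N' ≥ N, ∀ h ∈ F, N' < h.2.b → N ≤ h.2.a := by
  obtain ⟨h₀, hh₀, hN⟩ := hub N
  refine ⟨h₀.2.a, hN, fun h hh hlt => ?_⟩
  by_cases he : h = h₀
  · rw [he]; exact hN
  · rcases hF h hh h₀ hh₀ he with h5 | h5
    · have := hle (h.2.b + 1)
      omega
    · have h6 := hle (h₀.2.b + 1)
      have h7 := Hull.a_lt_b (hok h₀ hh₀)
      omega

/-- Every union of patterns over `F`, restricted to a set which does not cut the hulls of `F`,
looks at the scale of an earlier (or the same) stage like a foreign pattern of one hull. -/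
theorem invFrom_UU {I : ι → ℕ → ℕ} [LinearOrder ι] {ζ : ι} {d : Data ι} {c : ℕ → ℕ}
    (hmono : Monotone c) (hle : ∀ n, n ≤ c n)
    {F : Set (ι × Hull)} (hF : Apart c F) (hok : ∀ h ∈ F, h.2.Ok) {J : ℕ → ℕ}
    (hJ : ∀ h ∈ F, J h.2.a < 2 ^ h.2.a)
    {N₀ N₁ : ℕ} (hc : ∀ n ≥ N₀, d.c n ≤ c n) (hN₁ : ∀ h ∈ F, N₀ < h.2.b → N₁ ≤ h.2.a)
    (hcoh : ∀ h ∈ F, N₁ ≤ h.2.a → h.1 < ζ → h ∈ d.F)
    (hne : ∀ n ≥ N₁, J n ≠ I ζ n)
    (hgood : ∀ h ∈ F, N₁ ≤ h.2.a → ζ ≤ h.1 → Good I ζ d h.2)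
    (A : Set ℕ) (hA : ∀ h ∈ F, (∀ j, h.2.a ≤ j → j < h.2.b → j ∈ A) ∨
      ∀ j, h.2.a ≤ j → j < h.2.b → j ∉ A) :
    InvFrom I ζ d N₀ {j | j ∈ UU F J ∧ j ∈ A} := by
  rintro n m hn hm ⟨j, ⟨⟨h, hh, hj⟩, hjA⟩, hnj, hjm⟩
  have h1 := Hull.a_le_of_pat (hok h hh) hj
  have h2 := Hull.lt_b_of_pat (hok h hh) (hJ h hh) hj
  have h3 : N₁ ≤ h.2.a := hN₁ h hh (by omega)
  have hmc : m ≤ c n := hm.trans (hc n hn)
  have hall : ∀ j, h.2.a ≤ j → j < h.2.b → j ∈ A := by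
    rcases hA h hh with h4 | h4
    · exact h4
    · exact absurd hjA (h4 j h1 h2)
  -- on `[n, m)` the set is the pattern of `h`
  have key : ∀ j', n ≤ j' → j' < m → (j' ∈ {j | j ∈ UU F J ∧ j ∈ A} ↔
      j' ∈ h.2.pat (J h.2.a)) := by
    intro j' hnj' hjm'
    constructor
    · rintro ⟨⟨h', hh', hj'⟩, -⟩
      have h5 := Hull.a_le_of_pat (hok h' hh') hj'
      have h6 := Hull.lt_b_of_pat (hok h' hh') (hJ h' hh') hj'
      have := apart_unique hmono hF hh hh' hmc (by omega) (by omega) (by omega) (by omega)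
      rw [this]
      exact hj'
    · intro hj'
      exact ⟨⟨h, hh, hj'⟩, hall j' (Hull.a_le_of_pat (hok h hh) hj')
        (Hull.lt_b_of_pat (hok h hh) (hJ h hh) hj')⟩
  rcases lt_or_ge h.1 ζ with hlt | hge
  · exact ⟨h, hcoh h hh h3 hlt, J h.2.a, hJ h hh, hne _ h3, by omega, by omega, key⟩
  · obtain ⟨h', hh', i, hi, hi', h7, h8, h9⟩ := (hgood h hh h3 hge).1 (J h.2.a) (hJ h hh) n m
      (Nat.zero_le _) hm ⟨j, hj, hnj, hjm⟩
    exact ⟨h', hh', i, hi, hi', h7, h8, fun j' h10 h11 => (key j' h10 h11).trans (h9 j' h10 h11)⟩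

/-- If there are no early elements then the property holds from the beginning. -/
theorem InvFrom.of_late {I : ι → ℕ → ℕ} {ζ : ι} {d : Data ι} (hmono : Monotone d.c) {N : ℕ}
    {z : Set ℕ} (h : InvFrom I ζ d N z) (hz : ∀ j ∈ z, d.c N ≤ j) : InvFrom I ζ d 0 z := by
  intro n m _ hm hex
  rcases le_or_gt N n with h1 | h1
  · exact h n m h1 hm hex
  · exfalso
    obtain ⟨j, hj, -, hjm⟩ := hex
    have h2 := hz j hj
    have h3 := hmono h1.le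
    omega

theorem InvFrom.congr {I : ι → ℕ → ℕ} {ζ : ι} {d : Data ι} {N : ℕ}
    {z z' : Set ℕ} (h : InvFrom I ζ d N z) (hz : z = z') : InvFrom I ζ d N z' := hz ▸ h

end Pool.Agent.H735.PU
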