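import Pool.Agent.H735.PU.Space

/-!
Under CH: a subset of the Cantor space which is productively Menger along every free ultrafilter
and whose product with some Scheepers subset of the Cantor space is not Menger.
-/

namespace Pool.Agent.H735.PU

open Set Filter Cardinal Pool.Agent.H752R3 Pool.Agent.E8helper73.Sch

/-- From families of cylinders to open covers. -/
theorem scheepers_of_cyl {κ : Type} [Nonempty κ] (q : κ → Set ℕ)
    (h : ∀ v : ℕ → ℕ → List Bool, (∀ p n, ∃ j, q p ∈ Cyl (v n j)) →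
      ∃ g : ℕ → ℕ, ∀ P : Finset κ, ∃ k, ∀ p ∈ P, ∃ j < g k, q p ∈ Cyl (v k j)) :
    ScheepersSp (range fun p => ch (q p)) := by
  classical
  intro C hC
  let L : ℕ → Set (List Bool) := fun n => {l | ∃ u ∈ C n, ∀ p, q p ∈ Cyl l →
    (⟨ch (q p), p, rfl⟩ : range fun p => ch (q p)) ∈ u}
  have hL : ∀ n p, ∃ l ∈ L n, q p ∈ Cyl l := by
    intro n p
    have hmem : (⟨ch (q p), p, rfl⟩ : range fun p => ch (q p)) ∈ ⋃₀ C n := by
      rw [(hC n).2]; trivial
    obtain ⟨u, hu, hpu⟩ := hmem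
    obtain ⟨A, hA, rfl⟩ := isOpen_induced_iff.1 ((hC n).1 u hu)
    obtain ⟨N, hN⟩ := exists_agree hA hpu
    refine ⟨List.ofFn (fun i : Fin N => ch (q p) i), ⟨_, hu, ?_⟩, ?_⟩
    · intro p' hp'
      apply hN
      intro i hi
      have h1 := hp' i (by simpa using hi)
      simp only [List.getElem_ofFn, ch_eq_true] at h1
      rw [Bool.eq_iff_iff, ch_eq_true, ch_eq_true]
      exact h1
    · intro i hi
      simp only [List.getElem_ofFn, ch_eq_true]
  have hLne : ∀ n, (L n).Nonempty := by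
    intro n
    obtain ⟨l, hl, -⟩ := hL n (Classical.arbitrary κ)
    exact ⟨l, hl⟩
  have hv : ∀ n, ∃ v : ℕ → List Bool, L n = range v := fun n =>
    (Set.to_countable (L n)).exists_eq_range (hLne n)
  choose v hv using hv
  obtain ⟨g, hg⟩ := h v (by
    intro p n
    obtain ⟨l, hl, hl'⟩ := hL n p
    rw [hv n] at hl
    obtain ⟨j, rfl⟩ := hl
    exact ⟨j, hl'⟩)
  have hu : ∀ n j, ∃ u ∈ C n, ∀ p, q p ∈ Cyl (v n j) →
      (⟨ch (q p), p, rfl⟩ : range fun p => ch (q p)) ∈ u := by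
    intro n j
    have : v n j ∈ L n := by rw [hv n]; exact ⟨j, rfl⟩
    exact this
  choose u hu1 hu2 using hu
  refine ⟨fun n => u n '' Set.Iio (g n), fun n => ⟨?_, ?_⟩, ?_⟩
  · rintro _ ⟨j, -, rfl⟩
    exact hu1 n j
  · exact (Set.finite_Iio (g n)).image _
  · intro E hE
    have hσ : ∀ y : range fun p => ch (q p), ∃ p, ch (q p) = y.1 := fun y => y.2
    choose σ hσ using hσ
    obtain ⟨k, hk⟩ := hg (hE.toFinset.image σ)
    refine ⟨k, fun y hy => ?_⟩
    obtain ⟨j, hj, hj'⟩ := hk (σ y) (Finset.mem_image.2 ⟨y, hE.mem_toFinset.2 hy, rfl⟩)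
    have h1 := hu2 k j (σ y) hj'
    have h2 : (⟨ch (q (σ y)), σ y, rfl⟩ : range fun p => ch (q p)) = y := Subtype.ext (hσ y)
    rw [h2] at h1
    exact ⟨_, ⟨j, hj, rfl⟩, h1⟩

theorem cnt_le_succ {z : ℕ → Bool} {n m : ℕ}
    (h : ∀ i i', n ≤ i → i < m → n ≤ i' → i' < m → z i = true → z i' = true → i = i') :
    cnt m z ≤ n + 1 := by
  classical
  unfold cnt
  rw [← Finset.card_filter]
  have h1 : (Finset.range m).filter (fun i => z i = true) ⊆ Finset.range n ∪
      (Finset.range m).filter (fun i => n ≤ i ∧ z i = true) := by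
    intro i hi
    obtain ⟨h2, h3⟩ := Finset.mem_filter.1 hi
    by_cases h4 : i < n
    · exact Finset.mem_union_left _ (Finset.mem_range.2 h4)
    · exact Finset.mem_union_right _ (Finset.mem_filter.2 ⟨h2, not_lt.1 h4, h3⟩)
  have h2 : ((Finset.range m).filter (fun i => n ≤ i ∧ z i = true)).card ≤ 1 := by
    rw [Finset.card_le_one]
    intro i hi i' hi'
    obtain ⟨h3, h4, h5⟩ := Finset.mem_filter.1 hi
    obtain ⟨h6, h7, h8⟩ := Finset.mem_filter.1 hi'
    exact h i i' h4 (Finset.mem_range.1 h3) h7 (Finset.mem_range.1 h6) h5 h8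
  calc _ ≤ _ := Finset.card_le_card h1
    _ ≤ _ := Finset.card_union_le _ _
    _ ≤ n + 1 := by rw [Finset.card_range]; omega

/-- **The theorem for subsets of the Cantor space.** -/
theorem exists_cantor (CH : (ℵ₁ : Cardinal.{0}) = 𝔠) :
    ∃ X Y : Set (ℕ → Bool), (∀ z, FinSupp z → z ∈ X) ∧
      (∀ U : Ultrafilter ℕ, (U : Filter ℕ) ≤ atTop →
        ∀ (Y : Type*) [TopologicalSpace Y], UMengerSp U Y → UMengerSp U (X × Y)) ∧
      ScheepersSp Y ∧ ¬ MengerSp (X × Y) := by
  classical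
  obtain ⟨e, I, he, hI1, hI2, hI3⟩ := exists_setup CH
  have hcount : ∀ δ : Om, (Set.Iio δ).Countable := countable_Iio_omega1
  obtain ⟨D, hD⟩ := exists_stages hI2 e hcount
  let κ := {p : Om × Bool // ¬ IsMin p.1}
  have hκ : Nonempty κ := by
    obtain ⟨δ, hδ, -⟩ := he (fun _ => 0, fun _ _ => [])
    exact ⟨⟨(δ, true), hδ⟩⟩
  let q : κ → Set ℕ := fun p => pts I D p.1
  let X : Set (ℕ → Bool) := {z | ∃ δ, ¬ IsMin δ ∧ z = ch (xx I δ (D δ))} ∪ {z | FinSupp z}
  refine ⟨X, range fun p => ch (q p), fun z hz => Or.inr hz, ?_, ?_, ?_⟩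
  · -- productively Menger along ultrafilters
    intro U hU Y _ hY
    refine productively_UMenger U hU X (fun z hz => Or.inr hz) ?_ Y hY
    obtain ⟨ν, hν⟩ := criterion hD hI1 hI3 hcount
      (fun c => by
        obtain ⟨δ, h1, h2⟩ := he (c, fun _ _ => [])
        exact ⟨δ, h1, by rw [h2]⟩) U hU
    refine ⟨ν, fun c => ?_⟩
    refine (((hν c).image fun δ => ch (xx I δ (D δ))).union finSupp_countable).mono ?_
    rintro z ⟨hz | hz, hzU⟩
    · obtain ⟨δ, -, rfl⟩ := hz
      refine Or.inl ⟨δ, ?_, rfl⟩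
      intro hcon
      apply hzU
      filter_upwards [hcon] with n hn j hj hj'
      exact hn j (ch_eq_true.1 hj') hj
    · exact Or.inr hz
  · -- Scheepers
    refine scheepers_of_cyl q fun v hv => ?_
    obtain ⟨g, hg⟩ := scheepers_family hD hI1 hcount v
      (by
        obtain ⟨δ, h1, h2⟩ := he (fun _ => 0, v)
        exact ⟨δ, h1, by rw [h2]⟩)
      (fun δ hδ b n => hv ⟨(δ, b), hδ⟩ n)
    refine ⟨g, fun P => ?_⟩
    obtain ⟨k, hk⟩ := hg (P.image Subtype.val) (by
      intro p hp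
      obtain ⟨p', -, rfl⟩ := Finset.mem_image.1 hp
      exact p'.2)
    exact ⟨k, fun p hp => hk p.1 (Finset.mem_image.2 ⟨p, hp, rfl⟩)⟩
  · -- the product is not Menger
    intro hmenger
    let V : ℕ → ℕ → Set (X × (range fun p => ch (q p))) := fun n k =>
      {z | n + 1 < cnt k (xr z.1.1 z.2.1)}
    have hVo : ∀ n k, IsOpen (V n k) := by
      intro n k
      have hc : Continuous fun z : X × (range fun p => ch (q p)) => cnt k (xr z.1.1 z.2.1) :=
        ((continuous_cnt k).comp continuous_xr).comp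
          ((continuous_subtype_val.comp continuous_fst).prodMk
            (continuous_subtype_val.comp continuous_snd))
      exact (isOpen_discrete (Set.Ioi (n + 1))).preimage hc
    obtain ⟨F, hF1, hF2⟩ := hmenger.frequently (fun n => range (V n)) (by
      intro n
      refine ⟨?_, ?_⟩
      · rintro _ ⟨k, rfl⟩
        exact hVo n k
      · rw [eq_univ_iff_forall]
        rintro ⟨⟨x, hx⟩, ⟨_, ⟨⟨δ', b⟩, hmin'⟩, rfl⟩⟩
        have h1 : ∀ N, ∃ j ≥ N, xr x (ch (pts I D (δ', b))) j = true := by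
          intro N
          rcases hx with ⟨δ, hmin, rfl⟩ | ⟨m, hm⟩
          · obtain ⟨j, hj, hj'⟩ := points_ne hD hI1 hI2 hmin hmin' b N
            refine ⟨j, hj, ?_⟩
            rw [← ch_eq_true, ← ch_eq_true, ← Bool.eq_iff_iff] at hj'
            unfold xr
            rw [bne_iff_ne]
            exact hj'
          · obtain ⟨j, hj, hj'⟩ := points_infinite hD (I := I) hmin' b (max N m)
            refine ⟨j, (le_max_left _ _).trans hj, ?_⟩
            unfold xr
            rw [hm j ((le_max_right _ _).trans hj), ch_eq_true.2 hj']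
            rfl
        obtain ⟨k, hk⟩ := exists_lt_cnt h1 (n + 1)
        exact ⟨_, ⟨k, rfl⟩, hk⟩)
    -- bound the indices
    have hg : ∀ n, ∃ g, ∀ z ∈ ⋃₀ F n, n + 1 < cnt g (xr z.1.1 z.2.1) := by
      intro n
      obtain ⟨G, -, hG2, hG3⟩ : ∃ G ⊆ (Set.univ : Set ℕ), G.Finite ∧ V n '' G = F n := by
        have := Set.exists_subset_image_finite_and (f := V n) (s := Set.univ)
          (p := fun t => t = F n)
        obtain ⟨E', h1, h2, h3⟩ := this.1 ⟨F n, by rw [image_univ]; exact (hF1 n).1,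
          (hF1 n).2, rfl⟩
        exact ⟨E', h1, h2, h3⟩
      obtain ⟨g, hg⟩ := hG2.bddAbove
      refine ⟨g, ?_⟩
      rintro z ⟨u, hu, hz⟩
      rw [← hG3] at hu
      obtain ⟨k, hk, rfl⟩ := hu
      have h1 : n + 1 < cnt k (xr z.1.1 z.2.1) := hz
      exact lt_of_lt_of_le h1 (cnt_mono (hg hk) _)
    choose g hg using hg
    obtain ⟨δ, hmin, hδ⟩ := he (g, fun _ _ => [])
    have hs := (hD δ).1
    have h1 := hs.scale hmin
    rw [hδ] at h1
    obtain ⟨n, hn1, hn2⟩ := ((hF2 (⟨ch (xx I δ (D δ)), Or.inl ⟨δ, hmin, rfl⟩⟩,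
      ⟨ch (pts I D (δ, true)), ⟨(δ, true), hmin⟩, rfl⟩)).and_eventually h1).exists
    have h2 := hg n _ hn1
    have h3 : cnt (g n) (xr (ch (xx I δ (D δ))) (ch (pts I D (δ, true)))) ≤ n + 1 := by
      have hkey : ∀ i, xr (ch (xx I δ (D δ))) (ch (pts I D (δ, true))) i = true →
          ∃ h ∈ (D δ).F, i = h.2.b := by
        intro i hi
        unfold xr at hi
        rw [bne_iff_ne, ne_eq, Bool.eq_iff_iff, ch_eq_true, ch_eq_true] at hi
        have h5 : pts I D (δ, true) = yy I δ (D δ) := by simp [pts]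
        rw [h5] at hi
        by_cases h6 : i ∈ xx I δ (D δ)
        · exact absurd ⟨fun _ => Or.inl h6, fun _ => h6⟩ hi
        · by_cases h7 : i ∈ yy I δ (D δ)
          · rcases h7 with h7 | h7
            · exact absurd h7 h6
            · exact h7
          · exact absurd ⟨fun h => absurd h h6, fun h => absurd h h7⟩ hi
      apply cnt_le_succ
      intro i i' h4 h5 h6 h7 h8 h9
      obtain ⟨h, hh, rfl⟩ := hkey i h8
      obtain ⟨h', hh', rfl⟩ := hkey i' h9
      have := ends_unique hs.mono hs.apart hs.ok hh hh' h4 (lt_of_lt_of_le h5 hn2) h6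
        (lt_of_lt_of_le h7 hn2)
      rw [this]
    have h4 : n + 1 < cnt (g n) (xr (ch (xx I δ (D δ))) (ch (pts I D (δ, true)))) := h2
    omega

end Pool.Agent.H735.PU
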