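import Pool.Agent.H735.PU.Step

/-!
For every ultrafilter there is a function `ν` such that for every `c`, for all but countably many
stages, the new point has no elements between `ν n` and `c n` for `U`-many `n`.
-/

namespace Pool.Agent.H735.PU

open Set Filter

variable {ι : Type} [LinearOrder ι]

/-- The point of a later stage, seen from an earlier stage. -/
theorem inv_xx {I : ι → ℕ → ℕ} {e : ι → (ℕ → ℕ) × (ℕ → ℕ → List Bool)} {D : ι → Data ι}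
    (hD : ∀ δ, Self I e δ (D δ) ∧ ∀ ζ < δ, Rel I ζ (D ζ) (D δ))
    (hI1 : ∀ ζ n, I ζ n < 2 ^ n) (hI3 : ∀ ζ δ, ζ ≠ δ → ∀ᶠ n in atTop, I ζ n ≠ I δ n)
    {ζ δ : ι} (hlt : ζ < δ) : ∃ N, InvFrom I ζ (D ζ) N (xx I δ (D δ)) := by
  have hs := (hD δ).1
  have hr := (hD δ).2 ζ hlt
  have hmin : ¬ IsMin δ := not_isMin_of_lt hlt
  have hub := unbounded_F (hD δ) hmin
  obtain ⟨N₂, hN₂⟩ := eventually_atTop.1 hr.le
  obtain ⟨N₃, hN₃⟩ := hr.coh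
  obtain ⟨N₄, hN₄⟩ := hr.goodF
  obtain ⟨N₅, hN₅⟩ := eventually_atTop.1 (hI3 δ ζ hlt.ne')
  let N₁ := max N₃ (max N₄ N₅)
  have e3 : N₃ ≤ N₁ := le_max_left _ _
  have e4 : N₄ ≤ N₁ := (le_max_left _ _).trans (le_max_right _ _)
  have e5 : N₅ ≤ N₁ := (le_max_right _ _).trans (le_max_right _ _)
  obtain ⟨N', -, hN'⟩ := exists_tail hs.le_c hs.apart hs.ok hub N₁
  have f1 : N' ≤ max N' N₂ := le_max_left _ _
  have f2 : N₂ ≤ max N' N₂ := le_max_right _ _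
  refine ⟨max N' N₂, ?_⟩
  have h1 : InvFrom I ζ (D ζ) (max N' N₂) {j | j ∈ UU (D δ).F (I δ) ∧ j ∈ (Set.univ : Set ℕ)} := by
    apply invFrom_UU (N₁ := N₁) hs.mono hs.le_c hs.apart hs.ok (fun h _ => hI1 δ _)
      (fun n hn => hN₂ n (f2.trans hn))
    · intro h hh hlt
      exact hN' h hh (lt_of_le_of_lt f1 hlt)
    · intro h hh ha
      exact hN₃ h hh (e3.trans ha)
    · intro n hn
      exact hN₅ n (e5.trans hn)
    · intro h hh ha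
      exact hN₄ h hh (e4.trans ha)
    · intro h hh
      exact Or.inl fun _ _ _ => trivial
  exact h1.congr (by ext j; simp [xx])

/-- If two different late points are heavy at `n` in the scale of `ζ`, then they follow a hull
which belongs to all the stages between `ζ` and the first of the two points. -/
theorem star {I : ι → ℕ → ℕ} {e : ι → (ℕ → ℕ) × (ℕ → ℕ → List Bool)} {D : ι → Data ι}
    (hD : ∀ δ, Self I e δ (D δ) ∧ ∀ ζ < δ, Rel I ζ (D ζ) (D δ))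
    (hI1 : ∀ ζ n, I ζ n < 2 ^ n) (hI3 : ∀ ζ δ, ζ ≠ δ → ∀ᶠ n in atTop, I ζ n ≠ I δ n)
    {ζ ζ' δ₁ δ₂ : ι} (h1 : ζ ≤ ζ') (h2 : ζ' < δ₁) (h3 : δ₁ < δ₂) :
    ∀ᶠ n in atTop, (∃ j ∈ xx I δ₁ (D δ₁), n ≤ j ∧ j < (D ζ).c n) →
      (∃ j ∈ xx I δ₂ (D δ₂), n ≤ j ∧ j < (D ζ).c n) →
      ∃ h ∈ (D ζ).F, h ∈ (D ζ').F ∧ h.2.a < (D ζ).c n ∧ n < h.2.b := by
  have hs := (hD δ₁).1
  have hlt : ζ < δ₁ := lt_of_le_of_lt h1 h2
  have hmin : ¬ IsMin δ₁ := not_isMin_of_lt h2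
  have hub := unbounded_F (hD δ₁) hmin
  obtain ⟨N₃, hN₃⟩ := ((hD δ₁).2 ζ hlt).coh
  obtain ⟨N₃', hN₃'⟩ := ((hD δ₁).2 ζ' h2).coh
  obtain ⟨N₄, hN₄⟩ := ((hD δ₁).2 ζ hlt).goodF
  let N₁ := max N₃ (max N₃' N₄)
  have e3 : N₃ ≤ N₁ := le_max_left _ _
  have e3' : N₃' ≤ N₁ := (le_max_left _ _).trans (le_max_right _ _)
  have e4 : N₄ ≤ N₁ := (le_max_right _ _).trans (le_max_right _ _)
  obtain ⟨N', -, hN'⟩ := exists_tail hs.le_c hs.apart hs.ok hub N₁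
  obtain ⟨N, hN⟩ := inv_xx hD hI1 hI3 h3
  filter_upwards [eventually_ge_atTop N, eventually_ge_atTop N',
    ((hD δ₁).2 ζ hlt).le] with n hn hn' hc
  rintro ⟨j₁, ⟨h₁, hh₁, hj₁⟩, hj₁1, hj₁2⟩ hex₂
  obtain ⟨h, hh, i, hi, hi', ha, hb, hiff⟩ := hN n ((D ζ).c n) hn hc hex₂
  obtain ⟨j₂, hj₂, hj₂1, hj₂2⟩ := hex₂
  have p1 := Hull.a_le_of_pat (hs.ok h₁ hh₁) hj₁
  have p2 := Hull.lt_b_of_pat (hs.ok h₁ hh₁) (hI1 _ _) hj₁
  have heq := apart_unique hs.mono hs.apart hh hh₁ hc ha hb (by omega) (by omega)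
  subst heq
  have hN1 := hN' h hh (by omega)
  rcases lt_or_ge h.1 ζ with h5 | h5
  · exact ⟨h, hN₃ h hh (e3.trans hN1) h5, hN₃' h hh (e3'.trans hN1) (lt_of_lt_of_le h5 h1), ha, hb⟩
  · exfalso
    exact (hN₄ h hh (e4.trans hN1) h5).2 i hi _ (hI1 δ₁ _) hi' n
      ⟨j₂, (hiff j₂ hj₂1 hj₂2).1 hj₂, hj₂1, hj₂2⟩ ⟨j₁, hj₁, hj₁1, hj₁2⟩

theorem exists_two {A : Set ι} (hA : ¬ A.Countable) (B : Set ι) (hB : B.Countable) :
    ∃ δ₁ ∈ A, ∃ δ₂ ∈ A, δ₁ < δ₂ ∧ δ₁ ∉ B ∧ δ₂ ∉ B := by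
  have h1 : ¬ (A \ B).Countable := fun h => hA ((h.union hB).mono (by
    intro x hx
    by_cases hxB : x ∈ B
    · exact Or.inr hxB
    · exact Or.inl ⟨hx, hxB⟩))
  have h2 : (A \ B).Nontrivial := by
    by_contra h
    rw [Set.not_nontrivial_iff] at h
    exact h1 h.countable
  obtain ⟨x, hx, y, hy, hxy⟩ := h2
  rcases lt_or_gt_of_ne hxy with h | h
  · exact ⟨x, hx.1, y, hy.1, h, hx.2, hy.2⟩
  · exact ⟨y, hy.1, x, hx.1, h, hy.2, hx.2⟩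

/-- **The criterion for ultrafilters.** -/
theorem criterion {I : ι → ℕ → ℕ} {e : ι → (ℕ → ℕ) × (ℕ → ℕ → List Bool)} {D : ι → Data ι}
    (hD : ∀ δ, Self I e δ (D δ) ∧ ∀ ζ < δ, Rel I ζ (D ζ) (D δ))
    (hI1 : ∀ ζ n, I ζ n < 2 ^ n) (hI3 : ∀ ζ δ, ζ ≠ δ → ∀ᶠ n in atTop, I ζ n ≠ I δ n)
    (hcount : ∀ δ : ι, (Set.Iio δ).Countable)
    (he : ∀ c, ∃ δ, ¬ IsMin δ ∧ (e δ).1 = c)
    (U : Ultrafilter ℕ) (hU : (U : Filter ℕ) ≤ atTop) :
    ∃ ν : ℕ → ℕ, ∀ c : ℕ → ℕ, {δ | ¬ ∀ᶠ n in (U : Filter ℕ),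
      ∀ j ∈ xx I δ (D δ), j < c n → j < ν n}.Countable := by
  classical
  have hIic : ∀ δ : ι, (Set.Iic δ).Countable := fun δ => by
    rw [← Set.Iio_insert]
    exact (hcount δ).insert δ
  let G : ι → Set ι := fun ζ => {δ | ∀ᶠ n in (U : Filter ℕ),
    ∃ j ∈ xx I δ (D δ), n ≤ j ∧ j < (D ζ).c n}
  by_cases hG : ∀ ζ, (G ζ).Countable
  · refine ⟨id, fun c => ?_⟩
    obtain ⟨ζ, hζ1, hζ2⟩ := he c
    have hdom : ∀ᶠ n in (U : Filter ℕ), c n ≤ (D ζ).c n := by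
      have := (hD ζ).1.scale hζ1
      rw [hζ2] at this
      exact hU this
    refine (hG ζ).mono ?_
    intro δ hδ
    by_contra hcon
    apply hδ
    have h1 : ∀ᶠ n in (U : Filter ℕ), ¬ ∃ j ∈ xx I δ (D δ), n ≤ j ∧ j < (D ζ).c n :=
      Ultrafilter.eventually_not.2 hcon
    filter_upwards [h1, hdom] with n hn1 hn2 j hj hjc
    by_contra hnj
    exact hn1 ⟨j, hj, not_lt.1 hnj, lt_of_lt_of_le hjc hn2⟩
  · push Not at hG
    obtain ⟨ζ, hζ⟩ := hG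
    let ν : ℕ → ℕ := fun n => if h : ∃ h ∈ (D ζ).F, h.2.a < (D ζ).c n ∧ n < h.2.b then
      max n h.choose.2.b else n
    have hν1 : ∀ n, n ≤ ν n := by
      intro n
      show n ≤ if h : ∃ h ∈ (D ζ).F, h.2.a < (D ζ).c n ∧ n < h.2.b then
        max n h.choose.2.b else n
      split_ifs with h
      · exact le_max_left _ _
      · exact le_rfl
    have hν2 : ∀ n, ∀ h ∈ (D ζ).F, h.2.a < (D ζ).c n → n < h.2.b → h.2.b ≤ ν n := by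
      intro n h hh h1 h2
      have hex : ∃ h ∈ (D ζ).F, h.2.a < (D ζ).c n ∧ n < h.2.b := ⟨h, hh, h1, h2⟩
      have h3 := hex.choose_spec
      have heq := apart_unique (hD ζ).1.mono (hD ζ).1.apart hh h3.1 le_rfl h1 h2 h3.2.1 h3.2.2
      have : ν n = max n hex.choose.2.b := dif_pos hex
      rw [this, ← heq]
      exact le_max_right _ _
    refine ⟨ν, fun c => ?_⟩
    obtain ⟨ζc, hζ1, hζ2⟩ := he c
    let ζ' := max ζ ζc
    have hcle : ∀ ξ ≤ ζ', ∀ᶠ n in atTop, (D ξ).c n ≤ (D ζ').c n := by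
      intro ξ hξ
      rcases hξ.lt_or_eq with h | h
      · exact ((hD ζ').2 ξ h).le
      · rw [h]; exact Eventually.of_forall fun _ => le_rfl
    have hdom : ∀ᶠ n in atTop, c n ≤ (D ζ').c n := by
      have := (hD ζc).1.scale hζ1
      rw [hζ2] at this
      filter_upwards [this, hcle ζc (le_max_right _ _)] with n h1 h2
      exact h1.trans h2
    obtain ⟨δ₁, hδ₁, δ₂, hδ₂, hlt, hn1, hn2⟩ := exists_two hζ (Set.Iic ζ') (hIic ζ')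
    rw [Set.mem_Iic, not_le] at hn1 hn2
    have hstar := star hD hI1 hI3 (le_max_left ζ ζc : ζ ≤ ζ') hn1 hlt
    refine (hIic ζ').mono ?_
    intro δ₃ hδ₃
    by_contra hcon
    rw [Set.mem_Iic, not_le] at hcon
    apply hδ₃
    obtain ⟨N, hN⟩ := inv_xx hD hI1 hI3 hcon
    filter_upwards [hδ₁, hδ₂, hU hstar, hU hdom, hU (hcle ζ (le_max_left _ _)),
      hU (eventually_ge_atTop N)] with n g1 g2 g3 g4 g5 g6 j hj hjc
    obtain ⟨h, hh, hh', ha, hb⟩ := g3 g1 g2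
    by_contra hnj
    have hnj' : n ≤ j := (hν1 n).trans (not_lt.1 hnj)
    obtain ⟨h', hh'', i, hi, -, ha', hb', hiff⟩ := hN n ((D ζ').c n) g6 le_rfl
      ⟨j, hj, hnj', lt_of_lt_of_le hjc g4⟩
    have heq := apart_unique (hD ζ').1.mono (hD ζ').1.apart hh' hh'' (n := n)
      (m := (D ζ').c n) le_rfl (by omega) hb ha' hb'
    subst heq
    have h1 := (hiff j hnj' (lt_of_lt_of_le hjc g4)).1 hj
    have h2 := Hull.lt_b_of_pat ((hD ζ').1.ok h hh') hi h1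
    have h3 := hν2 n h hh ha hb
    omega

end Pool.Agent.H735.PU
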