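import Pool.Graph.R_pool_sql_team_seeded_b677cdb8.E8helper73.Sch.Reals

/-!
Hulls: intervals which contain several disjoint patterns; stages of the construction.
-/

namespace Pool.Agent.H735.PU

open Set Filter

/-- A hull: the points `M 0 < M 1 < ...` cut the set `Z` into patterns; the patterns with
index below `2 ^ M 0` belong to the hull. -/
structure Hull where
  M : ℕ → ℕ
  Z : Set ℕ

namespace Hull

/-- Left end point. -/
def a (h : Hull) : ℕ := h.M 0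

/-- Right end point. -/
def b (h : Hull) : ℕ := h.M (2 ^ h.M 0)

/-- The `i`-th pattern. -/
def pat (h : Hull) (i : ℕ) : Set ℕ := {j | h.M i ≤ j ∧ j < h.M (i + 1) ∧ j ∈ h.Z}

end Hull

/-- A hull with increasing division points. -/
def Hull.Ok (h : Hull) : Prop := StrictMono h.M

theorem Hull.a_lt_b {h : Hull} (hh : h.Ok) : h.a < h.b := hh (by positivity)

theorem Hull.a_le_of_pat {h : Hull} (hh : h.Ok) {i j : ℕ} (hj : j ∈ h.pat i) : h.a ≤ j :=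
  (hh.monotone (Nat.zero_le i)).trans hj.1

theorem Hull.lt_b_of_pat {h : Hull} (hh : h.Ok) {i j : ℕ} (hi : i < 2 ^ h.a) (hj : j ∈ h.pat i) :
    j < h.b := lt_of_lt_of_le hj.2.1 (hh.monotone (Nat.succ_le_of_lt hi))

theorem Hull.pat_disjoint {h : Hull} (hh : h.Ok) {i i' j : ℕ} (hj : j ∈ h.pat i)
    (hj' : j ∈ h.pat i') : i = i' := by
  rcases lt_trichotomy i i' with h1 | h1 | h1
  · have := hh.monotone (Nat.succ_le_of_lt h1)
    have h2 := hj.2.1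
    have h3 := hj'.1
    simp only [Nat.succ_eq_add_one] at this
    omega
  · exact h1
  · have := hh.monotone (Nat.succ_le_of_lt h1)
    have h2 := hj'.2.1
    have h3 := hj.1
    simp only [Nat.succ_eq_add_one] at this
    omega

variable {ι : Type}

/-- The data of one stage. -/
structure Data (ι : Type) where
  c : ℕ → ℕ
  F : Set (ι × Hull)
  Z : Set ℕ
  M : ℕ → ℕ → ℕ
  w : Set ℕ

/-- The own hulls of a stage. -/
def Data.own (d : Data ι) (k : ℕ) : Hull := ⟨d.M k, d.Z⟩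

/-- The union of the patterns of a family of hulls; the index of the pattern is given by a
function of the left end point. -/
def UU (F : Set (ι × Hull)) (I : ℕ → ℕ) : Set ℕ := {j | ∃ h ∈ F, j ∈ h.2.pat (I h.2.a)}

/-- The first kind of points. -/
def xx (I : ι → ℕ → ℕ) (δ : ι) (d : Data ι) : Set ℕ := UU d.F (I δ)

/-- The second kind of points. -/
def yy (I : ι → ℕ → ℕ) (δ : ι) (d : Data ι) : Set ℕ := xx I δ d ∪ {j | ∃ h ∈ d.F, j = h.2.b}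

/-- The intervals of `F` are far apart in the sense of `c`. -/
def Apart (c : ℕ → ℕ) (F : Set (ι × Hull)) : Prop :=
  ∀ h ∈ F, ∀ h' ∈ F, h ≠ h' → c (h.2.b + 1) ≤ h'.2.a ∨ c (h'.2.b + 1) ≤ h.2.a

/-- From `N` on, the set `z` looks at the scale of the stage `d` like a foreign pattern of one
hull. -/
def InvFrom (I : ι → ℕ → ℕ) (ζ : ι) (d : Data ι) (N : ℕ) (z : Set ℕ) : Prop :=
  ∀ n m, N ≤ n → m ≤ d.c n → (∃ j ∈ z, n ≤ j ∧ j < m) → ∃ h ∈ d.F, ∃ i < 2 ^ h.2.a,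
    i ≠ I ζ h.2.a ∧ h.2.a < m ∧ n < h.2.b ∧ ∀ j, n ≤ j → j < m → (j ∈ z ↔ j ∈ h.2.pat i)

/-- Different patterns are far apart in the sense of `c`. -/
def Sep (c : ℕ → ℕ) (h : Hull) : Prop :=
  ∀ i < 2 ^ h.a, ∀ i' < 2 ^ h.a, i ≠ i' → ∀ n, (∃ j ∈ h.pat i, n ≤ j ∧ j < c n) →
    (∃ j ∈ h.pat i', n ≤ j ∧ j < c n) → False

/-- A hull is good for the stage `ζ`. -/
def Good (I : ι → ℕ → ℕ) (ζ : ι) (d : Data ι) (h : Hull) : Prop :=
  (∀ i < 2 ^ h.a, InvFrom I ζ d 0 (h.pat i)) ∧ Sep d.c h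

/-- Cylinders. -/
def Cyl (l : List Bool) : Set (Set ℕ) := {S | ∀ i (hi : i < l.length), i ∈ S ↔ l[i] = true}

theorem Cyl_congr {l : List Bool} {S T : Set ℕ} {L : ℕ} (hL : l.length ≤ L)
    (h : ∀ i < L, i ∈ S ↔ i ∈ T) (hS : S ∈ Cyl l) : T ∈ Cyl l := by
  intro i hi
  rw [← h i (lt_of_lt_of_le hi hL)]
  exact hS i hi

/-- Properties of one stage. -/
structure Self [LinearOrder ι] (I : ι → ℕ → ℕ) (e : ι → (ℕ → ℕ) × (ℕ → ℕ → List Bool))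
    (δ : ι) (d : Data ι) : Prop where
  mono : Monotone d.c
  le_c : ∀ n, n ≤ d.c n
  lt : ∀ h ∈ d.F, h.1 < δ
  ok : ∀ h ∈ d.F, h.2.Ok
  apart : Apart d.c d.F
  ownOk : ∀ k, (d.own k).Ok
  le_a : ∀ k, k ≤ (d.own k).a
  ne : ∀ k i, ((d.own k).pat i).Nonempty
  neF : ∀ h ∈ d.F, ∀ i, (h.2.pat i).Nonempty
  good : ∃ N, ∀ k, N ≤ (d.own k).a → Good I δ d (d.own k)
  Z_eq : ¬ IsMin δ → d.Z = UU d.F (fun _ => 0)
  w_eq : ∃ m, ∀ j, m ≤ j → (j ∈ d.w ↔ j ∈ d.Z)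
  dich : ¬ IsMin δ → (∃ n, ∀ j, d.w ∉ Cyl ((e δ).2 n j)) ∨
    ∃ g : ℕ → ℕ, ∀ k, ∀ i < 2 ^ (d.own k).a, ∀ S : Set ℕ,
      (∀ j, (d.own k).a ≤ j → j < (d.own k).b → (j ∈ S ↔ j ∈ (d.own k).pat i)) →
      ∃ j < g k, S ∈ Cyl ((e δ).2 k j)
  scale : ¬ IsMin δ → ∀ᶠ n in atTop, (e δ).1 n ≤ d.c n

/-- Relations between an earlier and a later stage. -/
structure Rel [LinearOrder ι] (I : ι → ℕ → ℕ) (ζ : ι) (d e : Data ι) : Prop where
  le : ∀ᶠ n in atTop, d.c n ≤ e.c n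
  isOwn : ∀ h ∈ e.F, h.1 = ζ → ∃ k, h.2 = d.own k
  inf : ∀ N, ∃ k, (ζ, d.own k) ∈ e.F ∧ N ≤ (d.own k).a
  coh : ∃ N, ∀ h ∈ e.F, N ≤ h.2.a → h.1 < ζ → h ∈ d.F
  goodF : ∃ N, ∀ h ∈ e.F, N ≤ h.2.a → ζ ≤ h.1 → Good I ζ d h.2
  goodO : ∃ N, ∀ k, N ≤ (e.own k).a → Good I ζ d (e.own k)
  nextx : ¬ IsMin ζ → ∀ᶠ n in atTop, ∃ j ∈ xx I ζ d, n ≤ j ∧ j < e.c n
  nexty : ¬ IsMin ζ → ∀ᶠ n in atTop, ∃ j ∈ yy I ζ d, n ≤ j ∧ j < e.c n
  nextw : ¬ IsMin ζ → ∀ᶠ n in atTop, ∃ j ∈ d.w, n ≤ j ∧ j < e.c n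

/-- Recursion with pairwise relations. -/
theorem exists_pairwise_rec {κ α : Type*} [LinearOrder κ] [WellFoundedLT κ] [Nonempty α]
    (S : κ → α → Prop) (R : κ → κ → α → α → Prop)
    (step : ∀ (δ : κ) (D : κ → α), (∀ ξ < δ, S ξ (D ξ) ∧ ∀ ζ < ξ, R ζ ξ (D ζ) (D ξ)) →
      ∃ d, S δ d ∧ ∀ ζ < δ, R ζ δ (D ζ) d) :
    ∃ D : κ → α, ∀ δ, S δ (D δ) ∧ ∀ ζ < δ, R ζ δ (D ζ) (D δ) := by
  classical
  let st : ∀ δ : κ, (∀ ξ : κ, ξ < δ → α) → α := fun δ f =>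
    if h : ∃ d, S δ d ∧ ∀ ζ (hζ : ζ < δ), R ζ δ (f ζ hζ) d then h.choose
    else Classical.arbitrary α
  let D : κ → α := (wellFounded_lt (α := κ)).fix st
  have hD : ∀ δ, D δ = st δ (fun ξ _ => D ξ) := fun δ => (wellFounded_lt (α := κ)).fix_eq st δ
  refine ⟨D, fun δ => ?_⟩
  induction δ using WellFoundedLT.induction with
  | ind δ ih =>
    have hex : ∃ d, S δ d ∧ ∀ ζ (_ : ζ < δ), R ζ δ (D ζ) d := step δ D ih
    have : D δ = hex.choose := by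
      rw [hD]
      exact dif_pos hex
    rw [this]
    exact hex.choose_spec

end Pool.Agent.H735.PU
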