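import Pool.Agent.H735.PU.Basic

/-!
The choice of the family of hulls of a new stage.
-/

namespace Pool.Agent.H735.PU

open Set Filter

variable {ι : Type} [LinearOrder ι]

theorem pick {I : ι → ℕ → ℕ} {e : ι → (ℕ → ℕ) × (ℕ → ℕ → List Bool)} {δ : ι} {D : ι → Data ι}
    (hD : ∀ ξ < δ, Self I e ξ (D ξ) ∧ ∀ ζ < ξ, Rel I ζ (D ζ) (D ξ))
    {t : ℕ → ι} (ht : ∀ i, t i < δ) {ξ : ι} (hξ : ξ < δ) (j B : ℕ) :
    ∃ k, B ≤ ((D ξ).own k).a ∧ ∀ i ≤ j, (ξ < t i → (ξ, (D ξ).own k) ∈ (D (t i)).F) ∧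
      (t i ≤ ξ → Good I (t i) (D (t i)) ((D ξ).own k)) := by
  classical
  have hG : ∀ i, ∃ N, t i ≤ ξ → ∀ k, N ≤ ((D ξ).own k).a →
      Good I (t i) (D (t i)) ((D ξ).own k) := by
    intro i
    rcases lt_or_ge ξ (t i) with h | h
    · exact ⟨0, fun h' => absurd h (not_lt.2 h')⟩
    · rcases h.lt_or_eq with h1 | h1
      · obtain ⟨N, hN⟩ := ((hD ξ hξ).2 (t i) h1).goodO
        exact ⟨N, fun _ => hN⟩
      · obtain ⟨N, hN⟩ := (hD ξ hξ).1.good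
        rw [h1]
        exact ⟨N, fun _ => hN⟩
  choose N₁ hN₁ using hG
  let K₁ := (Finset.range (j + 1)).sup N₁
  have hK₁ : ∀ i ≤ j, N₁ i ≤ K₁ := fun i hi =>
    Finset.le_sup (f := N₁) (Finset.mem_range.2 (by omega))
  by_cases hex : ∃ i ≤ j, ξ < t i
  · obtain ⟨i₀, hi₀, hi₀'⟩ := hex
    obtain ⟨m, hm, hmax⟩ := Finset.exists_max_image
      ((Finset.range (j + 1)).filter (fun i => ξ < t i)) t
      ⟨i₀, by simp [hi₀']; omega⟩
    rw [Finset.mem_filter, Finset.mem_range] at hm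
    have hC : ∀ i, ∃ N, ξ < t i → t i < t m → ∀ h ∈ (D (t m)).F, N ≤ h.2.a → h.1 < t i →
        h ∈ (D (t i)).F := by
      intro i
      by_cases h : t i < t m
      · obtain ⟨N, hN⟩ := ((hD (t m) (ht m)).2 (t i) h).coh
        exact ⟨N, fun _ _ => hN⟩
      · exact ⟨0, fun _ h' => absurd h' h⟩
    choose N₂ hN₂ using hC
    let K₂ := (Finset.range (j + 1)).sup N₂
    have hK₂ : ∀ i ≤ j, N₂ i ≤ K₂ := fun i hi =>
      Finset.le_sup (f := N₂) (Finset.mem_range.2 (by omega))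
    obtain ⟨k, hk1, hk2⟩ := ((hD (t m) (ht m)).2 ξ hm.2).inf (max B (max K₁ K₂))
    have h1 : B ≤ ((D ξ).own k).a := (le_max_left _ _).trans hk2
    have h2 : K₁ ≤ ((D ξ).own k).a := ((le_max_left _ _).trans (le_max_right _ _)).trans hk2
    have h3 : K₂ ≤ ((D ξ).own k).a := ((le_max_right _ _).trans (le_max_right _ _)).trans hk2
    refine ⟨k, h1, fun i hi => ⟨fun hlt => ?_, fun hle => ?_⟩⟩
    · have hle := hmax i (by simp [hlt]; omega)
      rcases hle.lt_or_eq with h4 | h4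
      · exact hN₂ i hlt h4 _ hk1 ((hK₂ i hi).trans h3) hlt
      · rw [h4]; exact hk1
    · exact hN₁ i hle k ((hK₁ i hi).trans h2)
  · push Not at hex
    refine ⟨max B K₁, ((le_max_left _ _).trans ((hD ξ hξ).1.le_a _)), fun i hi =>
      ⟨fun hlt => absurd hlt (not_lt.2 (hex i hi)), fun hle => ?_⟩⟩
    exact hN₁ i hle _ (((hK₁ i hi).trans (le_max_right _ _)).trans ((hD ξ hξ).1.le_a _))

/-- The family of hulls of a new stage. -/
theorem exists_family {I : ι → ℕ → ℕ} {e : ι → (ℕ → ℕ) × (ℕ → ℕ → List Bool)} {δ : ι}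
    {D : ι → Data ι}
    (hD : ∀ ξ < δ, Self I e ξ (D ξ) ∧ ∀ ζ < ξ, Rel I ζ (D ζ) (D ξ))
    {t : ℕ → ι} (ht : ∀ i, t i < δ) (hts : ∀ ξ < δ, ∃ i, t i = ξ)
    {c : ℕ → ℕ} (hmono : Monotone c) (hle : ∀ n, n ≤ c n) :
    ∃ F : Set (ι × Hull), (∀ h ∈ F, h.1 < δ) ∧ (∀ h ∈ F, h.2.Ok) ∧ Apart c F ∧
      (∀ h ∈ F, ∀ i, (h.2.pat i).Nonempty) ∧ F.Nonempty ∧
      ∀ ζ < δ, (∀ h ∈ F, h.1 = ζ → ∃ k, h.2 = (D ζ).own k) ∧
        (∀ N, ∃ k, (ζ, (D ζ).own k) ∈ F ∧ N ≤ ((D ζ).own k).a) ∧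
        (∃ N, ∀ h ∈ F, N ≤ h.2.a → h.1 < ζ → h ∈ (D ζ).F) ∧
        (∃ N, ∀ h ∈ F, N ≤ h.2.a → ζ ≤ h.1 → Good I ζ (D ζ) h.2) := by
  classical
  let T : ℕ → ι := fun j => t (Nat.unpair j).1
  have hT : ∀ j, T j < δ := fun j => ht _
  choose P hP1 hP2 using fun (j B : ℕ) => pick hD ht (hT j) j B
  let hull : ℕ → ℕ → ι × Hull := fun j B => (T j, (D (T j)).own (P j B))
  let H : ℕ → ι × Hull := fun j => Nat.rec (hull 0 0)
    (fun j h => hull (j + 1) (c (h.2.b + 1))) j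
  have hH0 : H 0 = hull 0 0 := rfl
  have hHs : ∀ j, H (j + 1) = hull (j + 1) (c ((H j).2.b + 1)) := fun j => rfl
  have hHB : ∀ j, ∃ B, H j = hull j B := by
    intro j
    cases j with
    | zero => exact ⟨0, rfl⟩
    | succ j => exact ⟨_, hHs j⟩
  have hH1 : ∀ j, (H j).1 = T j := by
    intro j
    obtain ⟨B, hB⟩ := hHB j
    rw [hB]
  have hHown : ∀ j, ∃ k, (H j).2 = (D (T j)).own k := by
    intro j
    obtain ⟨B, hB⟩ := hHB j
    rw [hB]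
    exact ⟨_, rfl⟩
  have hHok : ∀ j, (H j).2.Ok := by
    intro j
    obtain ⟨k, hk⟩ := hHown j
    rw [hk]
    exact (hD _ (hT j)).1.ownOk k
  have hsucc : ∀ j, c ((H j).2.b + 1) ≤ (H (j + 1)).2.a := by
    intro j
    rw [hHs]
    exact hP1 _ _
  have hlt : ∀ j j', j < j' → c ((H j).2.b + 1) ≤ (H j').2.a := by
    intro j j' hjj'
    induction j', hjj' using Nat.le_induction with
    | base => exact hsucc j
    | succ m hm ih =>
      have h1 := hsucc m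
      have h2 := Hull.a_lt_b (hHok m)
      have h3 := hle ((H m).2.b + 1)
      omega
  have hamono : ∀ j j', j < j' → (H j).2.a < (H j').2.a := by
    intro j j' hjj'
    have h1 := hlt j j' hjj'
    have h2 := Hull.a_lt_b (hHok j)
    have h3 := hle ((H j).2.b + 1)
    omega
  have hasm : StrictMono fun j => (H j).2.a := fun j j' h => hamono j j' h
  have hge : ∀ i j, (H i).2.a ≤ (H j).2.a → i ≤ j := fun i j h => hasm.le_iff_le.1 h
  have hja : ∀ j, j ≤ (H j).2.a := fun j => hasm.le_apply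
  refine ⟨range H, ?_, ?_, ?_, ?_, ⟨H 0, 0, rfl⟩, ?_⟩
  · rintro _ ⟨j, rfl⟩
    rw [hH1]
    exact hT j
  · rintro _ ⟨j, rfl⟩
    exact hHok j
  · rintro _ ⟨j, rfl⟩ _ ⟨j', rfl⟩ hne
    rcases lt_trichotomy j j' with h | h | h
    · exact Or.inl (hlt j j' h)
    · exact absurd (by rw [h]) hne
    · exact Or.inr (hlt j' j h)
  · rintro _ ⟨j, rfl⟩ i
    obtain ⟨k, hk⟩ := hHown j
    rw [hk]
    exact (hD _ (hT j)).1.ne k i
  · intro ζ hζ
    obtain ⟨i₀, hi₀⟩ := hts ζ hζ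
    refine ⟨?_, ?_, ?_, ?_⟩
    · rintro _ ⟨j, rfl⟩ hj
      obtain ⟨k, hk⟩ := hHown j
      have : T j = ζ := by rw [← hH1, hj]
      rw [this] at hk
      exact ⟨k, hk⟩
    · intro N
      let j := Nat.pair i₀ N
      have hTj : T j = ζ := by simp [T, j, hi₀]
      obtain ⟨k, hk⟩ := hHown j
      rw [hTj] at hk
      refine ⟨k, ⟨j, ?_⟩, ?_⟩
      · rw [← hk, ← hTj, ← hH1]
      · rw [← hk]
        exact (Nat.right_le_pair i₀ N).trans (hja j)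
    · refine ⟨(H i₀).2.a, ?_⟩
      rintro _ ⟨j, rfl⟩ hj1 hj2
      have hij := hge _ _ hj1
      obtain ⟨B, hB⟩ := hHB j
      have h3 := (hP2 j B i₀ hij).1
      rw [hi₀] at h3
      rw [hB]
      apply h3
      rw [← hH1]
      exact hj2
    · refine ⟨(H i₀).2.a, ?_⟩
      rintro _ ⟨j, rfl⟩ hj1 hj2
      have hij := hge _ _ hj1
      obtain ⟨B, hB⟩ := hHB j
      have h3 := (hP2 j B i₀ hij).2
      rw [hi₀] at h3
      rw [hB]
      apply h3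
      rw [← hH1]
      exact hj2

end Pool.Agent.H735.PU
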