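import Pool.Agent.H735.PU.Family

/-!
The own hulls of a new stage.
-/

namespace Pool.Agent.H735.PU

open Set Filter

variable {ι : Type}

/-- A point which is not inside a hull of `F`. -/
def NoCut (F : Set (ι × Hull)) (m : ℕ) : Prop := ∀ h ∈ F, m ≤ h.2.a ∨ h.2.b ≤ m

theorem exists_noCut {c : ℕ → ℕ} (hle : ∀ n, n ≤ c n) {F : Set (ι × Hull)}
    (hF : Apart c F) (m : ℕ) : ∃ m' ≥ m, NoCut F m' := by
  by_cases hex : ∃ h ∈ F, h.2.a < m ∧ m < h.2.b
  · obtain ⟨h, hh, h1, h2⟩ := hex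
    refine ⟨h.2.b, h2.le, fun h' hh' => ?_⟩
    by_cases he : h' = h
    · rw [he]; exact Or.inr le_rfl
    · rcases hF h' hh' h hh he with h5 | h5
      · have := hle (h'.2.b + 1)
        right; omega
      · have := hle (h.2.b + 1)
        left; omega
  · push Not at hex
    refine ⟨m, le_rfl, fun h hh => ?_⟩
    rcases lt_or_ge h.2.a m with h1 | h1
    · exact Or.inr (hex h hh h1)
    · exact Or.inl h1

/-- Division points. -/
theorem exists_division {c : ℕ → ℕ} (hle : ∀ n, n ≤ c n) {F : Set (ι × Hull)}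
    (hF : Apart c F) (hok : ∀ h ∈ F, h.2.Ok) (hub : ∀ N, ∃ h ∈ F, N ≤ h.2.a)
    (hne : ∀ h ∈ F, ∀ i, (h.2.pat i).Nonempty) (R : ℕ → ℕ → ℕ) :
    ∃ M : ℕ → ℕ → ℕ, (∀ k, k ≤ M k 0) ∧ (∀ k i, M k i < M k (i + 1)) ∧
      (∀ k i, R k (M k i) ≤ M k (i + 1)) ∧ (∀ k i, NoCut F (M k i)) ∧
      ∀ k i, ∃ j ∈ UU F (fun _ => 0), M k i ≤ j ∧ j < M k (i + 1) := by
  have h1 : ∀ k m, ∃ m', m < m' ∧ R k m ≤ m' ∧ NoCut F m' ∧
      ∃ j ∈ UU F (fun _ => 0), m ≤ j ∧ j < m' := by
    intro k m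
    obtain ⟨h, hh, hm⟩ := hub m
    obtain ⟨m', hm', hcut⟩ := exists_noCut hle hF (max (R k m) h.2.b)
    have h2 := Hull.a_lt_b (hok h hh)
    have h3 : h.2.b ≤ m' := (le_max_right _ _).trans hm'
    obtain ⟨j, hj⟩ := hne h hh 0
    have h4 := Hull.a_le_of_pat (hok h hh) hj
    have h5 := Hull.lt_b_of_pat (hok h hh) (by positivity) hj
    exact ⟨m', by omega, (le_max_left _ _).trans hm', hcut, j, ⟨h, hh, hj⟩, by omega, by omega⟩
  choose nx h2 h3 h4 h5 using h1
  choose st h6 h7 using fun m => exists_noCut hle hF m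
  let M : ℕ → ℕ → ℕ := fun k i => Nat.rec (st k) (fun _ m => nx k m) i
  have hM0 : ∀ k, M k 0 = st k := fun k => rfl
  have hMs : ∀ k i, M k (i + 1) = nx k (M k i) := fun k i => rfl
  refine ⟨M, fun k => h6 k, fun k i => h2 _ _, fun k i => h3 _ _, fun k i => ?_, fun k i => h5 _ _⟩
  cases i with
  | zero => exact h7 k
  | succ i => exact h4 _ _

/-- The own hulls are good for the earlier stages. -/
theorem good_own [LinearOrder ι] {I : ι → ℕ → ℕ} {ζ : ι} {d : Data ι} {c : ℕ → ℕ}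
    (hmono : Monotone c) (hle : ∀ n, n ≤ c n)
    {F : Set (ι × Hull)} (hF : Apart c F) (hok : ∀ h ∈ F, h.2.Ok)
    (hub : ∀ N, ∃ h ∈ F, N ≤ h.2.a)
    (hdm : Monotone d.c) (hdc : ∀ᶠ n in atTop, d.c n ≤ c n)
    (hcoh : ∃ N, ∀ h ∈ F, N ≤ h.2.a → h.1 < ζ → h ∈ d.F)
    (hgood : ∃ N, ∀ h ∈ F, N ≤ h.2.a → ζ ≤ h.1 → Good I ζ d h.2)
    (hI : ∀ᶠ n in atTop, I ζ n ≠ 0)
    {M : ℕ → ℕ → ℕ} (hM : ∀ k i, M k i < M k (i + 1)) (hcut : ∀ k i, NoCut F (M k i)) :
    ∃ N, ∀ k, N ≤ M k 0 → Good I ζ d ⟨M k, UU F (fun _ => 0)⟩ := by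
  obtain ⟨N₂, hN₂⟩ := eventually_atTop.1 hdc
  obtain ⟨N₃, hN₃⟩ := hcoh
  obtain ⟨N₄, hN₄⟩ := hgood
  obtain ⟨N₅, hN₅⟩ := eventually_atTop.1 hI
  let N₁ := max N₃ (max N₄ N₅)
  have e3 : N₃ ≤ N₁ := le_max_left _ _
  have e4 : N₄ ≤ N₁ := (le_max_left _ _).trans (le_max_right _ _)
  have e5 : N₅ ≤ N₁ := (le_max_right _ _).trans (le_max_right _ _)
  obtain ⟨N', -, hN'⟩ := exists_tail hle hF hok hub N₁
  let N₀ := max N' N₂
  have f1 : N' ≤ N₀ := le_max_left _ _
  have f2 : N₂ ≤ N₀ := le_max_right _ _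
  have hMk : ∀ k, StrictMono (M k) := fun k => strictMono_nat_of_lt_succ (hM k)
  refine ⟨d.c N₀, fun k hk => ⟨fun i hi => ?_, ?_⟩⟩
  · have h1 : InvFrom I ζ d N₀ {j | j ∈ UU F (fun _ => 0) ∧ j ∈ Set.Ico (M k i) (M k (i + 1))} := by
      apply invFrom_UU (N₁ := N₁) hmono hle hF hok (fun _ _ => by positivity)
        (fun n hn => hN₂ n (f2.trans hn))
      · intro h hh hlt
        exact hN' h hh (lt_of_le_of_lt f1 hlt)
      · intro h hh ha
        exact hN₃ h hh (e3.trans ha)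
      · intro n hn
        exact (hN₅ n (e5.trans hn)).symm
      · intro h hh ha
        exact hN₄ h hh (e4.trans ha)
      · intro h hh
        rcases hcut k i h hh with h2 | h2
        · rcases hcut k (i + 1) h hh with h3 | h3
          · right
            rintro j hj1 hj2 ⟨-, hj4⟩
            omega
          · left
            intro j hj1 hj2
            exact ⟨by omega, by omega⟩
        · right
          rintro j hj1 hj2 ⟨hj3, -⟩
          omega
    have h2 : {j | j ∈ UU F (fun _ => 0) ∧ j ∈ Set.Ico (M k i) (M k (i + 1))} =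
        Hull.pat ⟨M k, UU F (fun _ => 0)⟩ i := by
      ext j
      constructor
      · rintro ⟨h3, h4, h5⟩
        exact ⟨h4, h5, h3⟩
      · rintro ⟨h3, h4, h5⟩
        exact ⟨h5, h3, h4⟩
    apply (h1.congr h2).of_late hdm
    intro j hj
    have h3 : M k 0 ≤ M k i := (hMk k).monotone (Nat.zero_le _)
    have h4 : M k i ≤ j := hj.1
    omega
  · rintro i hi i' hi' hne n ⟨j, hj, hj1, hj2⟩ ⟨j', hj', hj1', hj2'⟩
    have g1 : M k 0 ≤ j := ((hMk k).monotone (Nat.zero_le _)).trans hj.1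
    rcases lt_or_ge n N₀ with hn | hn
    · have h3 := hdm hn.le
      omega
    · have h3 := hN₂ n (f2.trans hn)
      obtain ⟨p1, p2, ⟨h, hh, p3⟩⟩ := hj
      obtain ⟨q1, q2, ⟨h', hh', q3⟩⟩ := hj'
      have p4 := Hull.a_le_of_pat (hok h hh) p3
      have p5 := Hull.lt_b_of_pat (hok h hh) (by positivity) p3
      have q4 := Hull.a_le_of_pat (hok h' hh') q3
      have q5 := Hull.lt_b_of_pat (hok h' hh') (by positivity) q3
      have heq := apart_unique hmono hF hh hh' (n := n) (m := c n) le_rfl (by omega) (by omega)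
        (by omega) (by omega)
      subst heq
      simp only at p1 p2 q1 q2
      rcases lt_or_gt_of_ne hne with h4 | h4
      · have h5 : M k (i + 1) ≤ M k i' := (hMk k).monotone h4
        rcases hcut k (i + 1) h hh with h6 | h6
        · omega
        · omega
      · have h5 : M k (i' + 1) ≤ M k i := (hMk k).monotone h4
        rcases hcut k (i' + 1) h hh with h6 | h6
        · omega
        · omega

/-- The set with a given beginning which agrees with `Z` from `m` on. -/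
def glue (s : Set ℕ) (m : ℕ) (Z : Set ℕ) : Set ℕ := {j | (j < m ∧ j ∈ s) ∨ (m ≤ j ∧ j ∈ Z)}

/-- The dichotomy. -/
theorem dichotomy (Z : Set ℕ) (v : ℕ → ℕ → List Bool) :
    (∃ s m n, ∀ j, glue s m Z ∉ Cyl (v n j)) ∨
    ∃ R g : ℕ → ℕ → ℕ, ∀ k m, ∀ S : Set ℕ, (∀ j, m ≤ j → j < R k m → (j ∈ S ↔ j ∈ Z)) →
      ∃ j < g k m, S ∈ Cyl (v k j) := by
  classical
  by_cases hex : ∃ s m n, ∀ j, glue s m Z ∉ Cyl (v n j)
  · exact Or.inl hex
  · right
    push Not at hex
    choose J hJ using hex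
    let T : ℕ → Finset (Finset ℕ) := fun m => (Finset.range m).powerset
    refine ⟨fun k m => (T m).sup (fun s => (v k (J (s : Set ℕ) m k)).length),
      fun k m => (T m).sup (fun s => J (s : Set ℕ) m k + 1), fun k m S hS => ?_⟩
    let s : Finset ℕ := (Finset.range m).filter (fun j => j ∈ S)
    have hs : s ∈ T m := Finset.mem_powerset.2 (Finset.filter_subset _ _)
    refine ⟨J (s : Set ℕ) m k, ?_, ?_⟩
    · have := Finset.le_sup (f := fun s : Finset ℕ => J (s : Set ℕ) m k + 1) hs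
      exact this
    · apply Cyl_congr (L := (v k (J (s : Set ℕ) m k)).length) le_rfl _ (hJ (s : Set ℕ) m k)
      intro j hj
      rcases lt_or_ge j m with h1 | h1
      · constructor
        · rintro (⟨-, h3⟩ | ⟨h2, -⟩)
          · have : j ∈ s := by exact_mod_cast h3
            rw [Finset.mem_filter] at this
            exact this.2
          · omega
        · intro h2
          left
          refine ⟨h1, ?_⟩
          have : j ∈ s := by rw [Finset.mem_filter, Finset.mem_range]; exact ⟨h1, h2⟩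
          exact_mod_cast this
      · have h4 := Finset.le_sup (f := fun s : Finset ℕ => (v k (J (s : Set ℕ) m k)).length) hs
        have h5 := hS j h1 (lt_of_lt_of_le hj h4)
        rw [h5]
        constructor
        · rintro (⟨h2, -⟩ | ⟨-, h3⟩)
          · omega
          · exact h3
        · intro h3
          exact Or.inr ⟨h1, h3⟩

end Pool.Agent.H735.PU
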