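import Pool.Agent.H735.PU.Crit

/-!
The points of the second space: they form a Scheepers family, and they are different from the
points of the first space.
-/

namespace Pool.Agent.H735.PU

open Set Filter

variable {ι : Type} [LinearOrder ι]

/-- The points of the second space. -/
def pts (I : ι → ℕ → ℕ) (D : ι → Data ι) (p : ι × Bool) : Set ℕ :=
  if p.2 = true then yy I p.1 (D p.1) else (D p.1).w

/-- The gap after a hull. -/
theorem gap {c : ℕ → ℕ} (hle : ∀ n, n ≤ c n) {F : Set (ι × Hull)} (hF : Apart c F)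
    (hok : ∀ h ∈ F, h.2.Ok) {h : ι × Hull} (hh : h ∈ F) {j : ℕ} (h1 : h.2.b + 1 ≤ j)
    (h2 : j < c (h.2.b + 1)) : (∀ J : ℕ → ℕ, (∀ h ∈ F, J h.2.a < 2 ^ h.2.a) → j ∉ UU F J) ∧
      ∀ h' ∈ F, j ≠ h'.2.b := by
  have h0 := Hull.a_lt_b (hok h hh)
  constructor
  · rintro J hJ ⟨h', hh', hj⟩
    have h3 := Hull.a_le_of_pat (hok h' hh') hj
    have h4 := Hull.lt_b_of_pat (hok h' hh') (hJ h' hh') hj
    by_cases he : h = h'
    · subst he; omega
    · rcases hF h hh h' hh' he with h5 | h5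
      · omega
      · have := hle (h'.2.b + 1)
        omega
  · rintro h' hh' rfl
    have h3 := Hull.a_lt_b (hok h' hh')
    by_cases he : h = h'
    · subst he; omega
    · rcases hF h hh h' hh' he with h5 | h5
      · omega
      · have := hle (h'.2.b + 1)
        omega

/-- The difference of the two points of a stage. -/
theorem end_notMem {c : ℕ → ℕ} (hle : ∀ n, n ≤ c n) {F : Set (ι × Hull)} (hF : Apart c F)
    (hok : ∀ h ∈ F, h.2.Ok) {J : ℕ → ℕ} (hJ : ∀ h ∈ F, J h.2.a < 2 ^ h.2.a)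
    {h : ι × Hull} (hh : h ∈ F) : h.2.b ∉ UU F J := by
  rintro ⟨h', hh', hj⟩
  have h3 := Hull.a_le_of_pat (hok h' hh') hj
  have h4 := Hull.lt_b_of_pat (hok h' hh') (hJ h' hh') hj
  have h5 := Hull.a_lt_b (hok h hh)
  have := apart_eq hle hF hh hh' h5.le le_rfl h3 h4.le
  subst this
  omega

theorem exists_gap {I : ι → ℕ → ℕ} {e : ι → (ℕ → ℕ) × (ℕ → ℕ → List Bool)} {D : ι → Data ι}
    (hD : ∀ δ, Self I e δ (D δ) ∧ ∀ ζ < δ, Rel I ζ (D ζ) (D δ))
    (hI1 : ∀ ζ n, I ζ n < 2 ^ n) {δ : ι} (hmin : ¬ IsMin δ) (N : ℕ) :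
    ∃ n ≥ N, ∀ j, n ≤ j → j < (D δ).c n → j ∉ xx I δ (D δ) ∧ j ∉ yy I δ (D δ) ∧ j ∉ (D δ).w := by
  have hs := (hD δ).1
  obtain ⟨m, hm⟩ := hs.w_eq
  obtain ⟨h, hh, hN⟩ := unbounded_F (hD δ) hmin (max N m)
  have h0 := Hull.a_lt_b (hs.ok h hh)
  have hN1 : N ≤ h.2.a := (le_max_left _ _).trans hN
  have hN2 : m ≤ h.2.a := (le_max_right _ _).trans hN
  refine ⟨h.2.b + 1, by omega, fun j hj1 hj2 => ?_⟩
  obtain ⟨g1, g2⟩ := gap hs.le_c hs.apart hs.ok hh hj1 hj2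
  have g3 := g1 (I δ) (fun h _ => hI1 δ _)
  have g4 := g1 (fun _ => 0) (fun h _ => by positivity)
  refine ⟨g3, ?_, ?_⟩
  · rintro (h5 | ⟨h', hh', h5⟩)
    · exact g3 h5
    · exact g2 h' hh' h5
  · intro h5
    rw [hm j (by omega), hs.Z_eq hmin] at h5
    exact g4 h5

/-- The points of the two spaces are different modulo finite sets. -/
theorem points_ne {I : ι → ℕ → ℕ} {e : ι → (ℕ → ℕ) × (ℕ → ℕ → List Bool)} {D : ι → Data ι}
    (hD : ∀ δ, Self I e δ (D δ) ∧ ∀ ζ < δ, Rel I ζ (D ζ) (D δ))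
    (hI1 : ∀ ζ n, I ζ n < 2 ^ n) (hI2 : ∀ ζ, ∀ᶠ n in atTop, I ζ n ≠ 0)
    {δ δ' : ι} (hmin : ¬ IsMin δ) (hmin' : ¬ IsMin δ') (b : Bool) (N : ℕ) :
    ∃ j ≥ N, ¬ (j ∈ xx I δ (D δ) ↔ j ∈ pts I D (δ', b)) := by
  rcases lt_trichotomy δ δ' with hlt | heq | hgt
  · obtain ⟨K, hK⟩ := eventually_atTop.1 (((hD δ').2 δ hlt).nextx hmin)
    obtain ⟨n, hn, hgap⟩ := exists_gap hD hI1 hmin' (max N K)
    obtain ⟨j, hj, hj1, hj2⟩ := hK n ((le_max_right _ _).trans hn)
    refine ⟨j, ((le_max_left _ _).trans hn).trans hj1, fun hiff => ?_⟩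
    have h1 := hiff.1 hj
    have h2 := hgap j hj1 hj2
    unfold pts at h1
    split_ifs at h1
    · exact h2.2.1 h1
    · exact h2.2.2 h1
  · subst heq
    have hs := (hD δ).1
    cases b with
    | true =>
      obtain ⟨h, hh, hN⟩ := unbounded_F (hD δ) hmin N
      have h0 := Hull.a_lt_b (hs.ok h hh)
      refine ⟨h.2.b, by omega, fun hiff => ?_⟩
      have h1 : h.2.b ∈ pts I D (δ, true) := by
        unfold pts
        rw [if_pos rfl]
        exact Or.inr ⟨h, hh, rfl⟩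
      exact end_notMem hs.le_c hs.apart hs.ok (fun h _ => hI1 δ _) hh (hiff.2 h1)
    | false =>
      obtain ⟨m, hm⟩ := hs.w_eq
      obtain ⟨K, hK⟩ := eventually_atTop.1 (hI2 δ)
      obtain ⟨h, hh, hN⟩ := unbounded_F (hD δ) hmin (max N (max m K))
      have e1 : N ≤ h.2.a := (le_max_left _ _).trans hN
      have e2 : m ≤ h.2.a := ((le_max_left _ _).trans (le_max_right _ _)).trans hN
      have e3 : K ≤ h.2.a := ((le_max_right _ _).trans (le_max_right _ _)).trans hN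
      obtain ⟨j, hj⟩ := hs.neF h hh (I δ h.2.a)
      have h1 := Hull.a_le_of_pat (hs.ok h hh) hj
      have h2 := Hull.lt_b_of_pat (hs.ok h hh) (hI1 δ _) hj
      refine ⟨j, by omega, fun hiff => ?_⟩
      have h3 := hiff.1 ⟨h, hh, hj⟩
      unfold pts at h3
      rw [if_neg (by simp)] at h3
      simp only at h3
      rw [hm j (by omega), hs.Z_eq hmin, mem_UU_iff hs.le_c hs.apart hs.ok
        (fun _ _ => by positivity) hh h1 h2.le] at h3
      exact hK _ e3 (Hull.pat_disjoint (hs.ok h hh) hj h3)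
  · have h4 : ∀ᶠ n in atTop, ∃ j ∈ pts I D (δ', b), n ≤ j ∧ j < (D δ).c n := by
      unfold pts
      cases b with
      | true =>
        simp only [if_true]
        exact ((hD δ).2 δ' hgt).nexty hmin'
      | false =>
        simp only [Bool.false_eq_true, if_false]
        exact ((hD δ).2 δ' hgt).nextw hmin'
    obtain ⟨K, hK⟩ := eventually_atTop.1 h4
    obtain ⟨n, hn, hgap⟩ := exists_gap hD hI1 hmin (max N K)
    obtain ⟨j, hj, hj1, hj2⟩ := hK n ((le_max_right _ _).trans hn)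
    refine ⟨j, ((le_max_left _ _).trans hn).trans hj1, fun hiff => ?_⟩
    exact (hgap j hj1 hj2).1 (hiff.2 hj)

theorem points_infinite {I : ι → ℕ → ℕ} {e : ι → (ℕ → ℕ) × (ℕ → ℕ → List Bool)}
    {D : ι → Data ι}
    (hD : ∀ δ, Self I e δ (D δ) ∧ ∀ ζ < δ, Rel I ζ (D ζ) (D δ))
    {δ : ι} (hmin : ¬ IsMin δ) (b : Bool) (N : ℕ) : ∃ j ≥ N, j ∈ pts I D (δ, b) := by
  obtain ⟨-, ⟨j, hj, hj'⟩, ⟨j₁, hj₁, hj₁'⟩⟩ := infinite_three (hD δ) hmin N
  unfold pts
  cases b with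
  | true => exact ⟨j, hj', by simpa using hj⟩
  | false => exact ⟨j₁, hj₁', by simpa using hj₁⟩

/-- A later point decides the cylinders of an earlier stage at the own hulls which it follows. -/
theorem decide_later {I : ι → ℕ → ℕ} {e : ι → (ℕ → ℕ) × (ℕ → ℕ → List Bool)}
    {D : ι → Data ι}
    (hD : ∀ δ, Self I e δ (D δ) ∧ ∀ ζ < δ, Rel I ζ (D ζ) (D δ))
    (hI1 : ∀ ζ n, I ζ n < 2 ^ n) {ξ δ : ι} (hlt : ξ < δ) {g : ℕ → ℕ}
    (hg : ∀ k, ∀ i < 2 ^ ((D ξ).own k).a, ∀ S : Set ℕ,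
      (∀ j, ((D ξ).own k).a ≤ j → j < ((D ξ).own k).b → (j ∈ S ↔ j ∈ ((D ξ).own k).pat i)) →
      ∃ j < g k, S ∈ Cyl ((e ξ).2 k j)) (b : Bool) :
    ∃ N, ∀ k, N ≤ ((D ξ).own k).a → (ξ, (D ξ).own k) ∈ (D δ).F →
      ∃ j < g k, pts I D (δ, b) ∈ Cyl ((e ξ).2 k j) := by
  have hs := (hD δ).1
  have hmin : ¬ IsMin δ := not_isMin_of_lt hlt
  obtain ⟨m, hm⟩ := hs.w_eq
  refine ⟨m, fun k hk hF => ?_⟩
  cases b with
  | true =>
    apply hg k (I δ ((D ξ).own k).a) (hI1 _ _)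
    intro j hj1 hj2
    unfold pts
    rw [if_pos rfl]
    have h1 := mem_UU_iff hs.le_c hs.apart hs.ok (I := I δ) (fun _ _ => hI1 δ _) hF hj1 hj2.le
    rw [← h1]
    constructor
    · rintro (h2 | ⟨h', hh', h2⟩)
      · exact h2
      · exfalso
        have h3 := Hull.a_lt_b (hs.ok h' hh')
        have := apart_eq hs.le_c hs.apart hh' hF (j := j) (by omega) (by omega) hj1 hj2.le
        subst this
        simp only at h2
        omega
    · intro h2
      exact Or.inl h2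
  | false =>
    apply hg k 0 (by positivity)
    intro j hj1 hj2
    unfold pts
    rw [if_neg (by simp)]
    simp only
    rw [hm j (hk.trans hj1), hs.Z_eq hmin]
    exact mem_UU_iff hs.le_c hs.apart hs.ok (fun _ _ => by positivity) hF hj1 hj2.le

/-- **The second space is Scheepers**, combinatorial form. -/
theorem scheepers_family {I : ι → ℕ → ℕ} {e : ι → (ℕ → ℕ) × (ℕ → ℕ → List Bool)}
    {D : ι → Data ι}
    (hD : ∀ δ, Self I e δ (D δ) ∧ ∀ ζ < δ, Rel I ζ (D ζ) (D δ))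
    (hI1 : ∀ ζ n, I ζ n < 2 ^ n) (hcount : ∀ δ : ι, (Set.Iio δ).Countable)
    (v : ℕ → ℕ → List Bool) (hv : ∃ δ, ¬ IsMin δ ∧ (e δ).2 = v)
    (hcov : ∀ δ, ¬ IsMin δ → ∀ b n, ∃ j, pts I D (δ, b) ∈ Cyl (v n j)) :
    ∃ g : ℕ → ℕ, ∀ P : Finset (ι × Bool), (∀ p ∈ P, ¬ IsMin p.1) →
      ∃ k, ∀ p ∈ P, ∃ j < g k, pts I D p ∈ Cyl (v k j) := by
  classical
  obtain ⟨ξ, hξ, rfl⟩ := hv
  rcases (hD ξ).1.dich hξ with ⟨n, hn⟩ | ⟨g, hg⟩
  · obtain ⟨j, hj⟩ := hcov ξ hξ false n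
    exact absurd hj (hn j)
  · -- the early points
    have hIic : {p : ι × Bool | p.1 ≤ ξ ∧ ¬ IsMin p.1}.Countable := by
      have h1 : (Set.Iic ξ).Countable := by
        rw [← Set.Iio_insert]
        exact (hcount ξ).insert ξ
      refine (h1.prod (Set.countable_univ (α := Bool))).mono ?_
      rintro p ⟨h2, -⟩
      exact ⟨h2, trivial⟩
    obtain ⟨t, ht⟩ := hIic.exists_eq_range ⟨(ξ, true), le_rfl, hξ⟩
    have hJ : ∀ i n, ∃ j, pts I D (t i) ∈ Cyl ((e ξ).2 n j) := by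
      intro i n
      have : t i ∈ {p : ι × Bool | p.1 ≤ ξ ∧ ¬ IsMin p.1} := by rw [ht]; exact ⟨i, rfl⟩
      exact hcov (t i).1 this.2 (t i).2 n
    choose J hJ using hJ
    let g' : ℕ → ℕ := fun n => (Finset.range (n + 1)).sup (fun i => J i n + 1)
    have hearly : ∀ p : ι × Bool, p.1 ≤ ξ → ¬ IsMin p.1 → ∃ K, ∀ k ≥ K,
        ∃ j < max (g k) (g' k), pts I D p ∈ Cyl ((e ξ).2 k j) := by
      intro p hp hp'
      have : p ∈ {p : ι × Bool | p.1 ≤ ξ ∧ ¬ IsMin p.1} := ⟨hp, hp'⟩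
      rw [ht] at this
      obtain ⟨i, rfl⟩ := this
      refine ⟨i, fun k hk => ⟨J i k, ?_, hJ i k⟩⟩
      have h1 := Finset.le_sup (f := fun i => J i k + 1) (Finset.mem_range.2 (Nat.lt_succ_of_le hk))
      exact lt_of_lt_of_le h1 (le_max_right _ _)
    refine ⟨fun k => max (g k) (g' k), fun P hP => ?_⟩
    by_cases hex : ∃ p ∈ P, ξ < p.1
    · obtain ⟨p₀, hp₀, hp₀'⟩ := hex
      obtain ⟨q, hq, hmax⟩ := Finset.exists_max_image (P.filter (fun p => ξ < p.1))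
        (fun p => p.1) ⟨p₀, by simp [hp₀, hp₀']⟩
      rw [Finset.mem_filter] at hq
      have hall : ∀ p : ι × Bool, ∃ N, p ∈ P → ∀ k, N ≤ ((D ξ).own k).a →
          (ξ, (D ξ).own k) ∈ (D q.1).F → ∃ j < max (g k) (g' k),
            pts I D p ∈ Cyl ((e ξ).2 k j) := by
        intro p
        by_cases hp : p ∈ P
        · rcases le_or_gt p.1 ξ with h1 | h1
          · obtain ⟨K, hK⟩ := hearly p h1 (hP p hp)
            refine ⟨(Finset.range K).sup (fun k => ((D ξ).own k).a) + 1, fun _ k hk _ => hK k ?_⟩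
            by_contra hcon
            have := Finset.le_sup (f := fun k => ((D ξ).own k).a)
              (Finset.mem_range.2 (not_le.1 hcon))
            omega
          · obtain ⟨N, hN⟩ := decide_later hD hI1 h1 hg p.2
            have hle := hmax p (by simp [hp, h1])
            rcases hle.lt_or_eq with h2 | h2
            · obtain ⟨N', hN'⟩ := ((hD q.1).2 p.1 h2).coh
              refine ⟨max N N', fun _ k hk hF => ?_⟩
              obtain ⟨j, hj, hj'⟩ := hN k ((le_max_left _ _).trans hk)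
                (hN' _ hF ((le_max_right _ _).trans hk) h1)
              exact ⟨j, lt_of_lt_of_le hj (le_max_left _ _), hj'⟩
            · refine ⟨N, fun _ k hk hF => ?_⟩
              rw [← h2] at hF
              obtain ⟨j, hj, hj'⟩ := hN k hk hF
              exact ⟨j, lt_of_lt_of_le hj (le_max_left _ _), hj'⟩
        · exact ⟨0, fun h => absurd h hp⟩
      choose N hN using hall
      obtain ⟨k, hk1, hk2⟩ := ((hD q.1).2 ξ hq.2).inf (P.sup N)
      exact ⟨k, fun p hp => hN p hp k ((Finset.le_sup hp).trans hk2) hk1⟩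
    · push Not at hex
      have hall : ∀ p : ι × Bool, ∃ K, p ∈ P → ∀ k ≥ K, ∃ j < max (g k) (g' k),
            pts I D p ∈ Cyl ((e ξ).2 k j) := by
        intro p
        by_cases hp : p ∈ P
        · obtain ⟨K, hK⟩ := hearly p (hex p hp) (hP p hp)
          exact ⟨K, fun _ => hK⟩
        · exact ⟨0, fun h => absurd h hp⟩
      choose K hK using hall
      exact ⟨P.sup K, fun p hp => hK p hp _ (Finset.le_sup hp)⟩

/-- At most one end point lies between `n` and `c n`. -/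
theorem ends_unique {c : ℕ → ℕ} (hmono : Monotone c) {F : Set (ι × Hull)} (hF : Apart c F)
    (hok : ∀ h ∈ F, h.2.Ok) {h h' : ι × Hull} (hh : h ∈ F) (hh' : h' ∈ F) {n : ℕ}
    (h1 : n ≤ h.2.b) (h2 : h.2.b < c n) (h3 : n ≤ h'.2.b) (h4 : h'.2.b < c n) : h = h' := by
  have e1 := Hull.a_lt_b (hok h hh)
  have e2 := Hull.a_lt_b (hok h' hh')
  by_contra hne
  rcases hF h hh h' hh' hne with h5 | h5
  · have : c n ≤ c (h.2.b + 1) := hmono (by omega)
    omega
  · have : c n ≤ c (h'.2.b + 1) := hmono (by omega)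
    omega

end Pool.Agent.H735.PU
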