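import Pool.Agent.H735.PU.Cantor

/-!
From the Cantor space to the reals.
-/

namespace Pool.Agent.H735.PU

open Set Filter Cardinal Pool.Agent.H752R3 Pool.Agent.E8helper73.Sch

theorem UMengerSp.menger {U : Ultrafilter ℕ} {Z : Type*} [TopologicalSpace Z]
    (h : UMengerSp U Z) : MengerSp Z := by
  intro C hC
  obtain ⟨F, hF1, hF2⟩ := h C hC
  refine ⟨F, hF1, ?_⟩
  rw [eq_univ_iff_forall]
  intro z
  obtain ⟨n, hn⟩ := U.nonempty_of_mem (hF2 z)
  exact mem_iUnion.2 ⟨n, hn⟩

theorem UMengerSp.of_finite (U : Ultrafilter ℕ) (Z : Type*) [TopologicalSpace Z] [Finite Z] :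
    UMengerSp U Z := by
  intro C hC
  have h1 : ∀ n (z : Z), ∃ u ∈ C n, z ∈ u := by
    intro n z
    have : z ∈ ⋃₀ C n := by rw [(hC n).2]; trivial
    exact this
  choose u hu1 hu2 using h1
  refine ⟨fun n => range (u n), fun n => ⟨?_, Set.finite_range _⟩, fun z => ?_⟩
  · rintro _ ⟨z, rfl⟩
    exact hu1 n z
  · filter_upwards with n
    exact ⟨_, ⟨z, rfl⟩, hu2 n z⟩

/-- **The theorem for sets of reals.** -/
theorem exists_reals (CH : (ℵ₁ : Cardinal.{0}) = 𝔠) :
    ∃ X Y : Set ℝ, X.Infinite ∧ Y.Infinite ∧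
      (∀ U : Ultrafilter ℕ, (U : Filter ℕ) ≤ atTop →
        ∀ (Z : Type*) [TopologicalSpace Z], UMengerSp U Z → UMengerSp U (X × Z)) ∧
      ScheepersSp Y ∧ ¬ MengerSp (X × Y) := by
  obtain ⟨X, Y, h0, h1, h2, h3⟩ := exists_cantor CH
  have hφ := isEmbedding_cantor
  let eX : X ≃ₜ (Cardinal.cantorFunction (1 / 3) '' X) := hφ.homeomorphImage X
  let eY : Y ≃ₜ (Cardinal.cantorFunction (1 / 3) '' Y) := hφ.homeomorphImage Y
  have h4 : ∀ U : Ultrafilter ℕ, (U : Filter ℕ) ≤ atTop → ∀ (Z : Type _) [TopologicalSpace Z],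
      UMengerSp U Z → UMengerSp U ((Cardinal.cantorFunction (1 / 3) '' X) × Z) := by
    intro U hU Z _ hZ
    exact (h1 U hU Z hZ).of_surjective (eX.prodCongr (Homeomorph.refl Z))
      (eX.prodCongr (Homeomorph.refl Z)).continuous (eX.prodCongr (Homeomorph.refl Z)).surjective
  refine ⟨Cardinal.cantorFunction (1 / 3) '' X, Cardinal.cantorFunction (1 / 3) '' Y, ?_, ?_, h4,
    ?_, ?_⟩
  · refine Set.Infinite.image hφ.injective.injOn ?_
    have hinj : Function.Injective fun n : ℕ => (fun m => decide (m = n) : ℕ → Bool) := by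
      intro a b hab
      have := congrFun hab a
      simpa using this
    refine (Set.infinite_range_of_injective hinj).mono ?_
    rintro _ ⟨n, rfl⟩
    exact h0 _ ⟨n + 1, fun m hm => by simp only [decide_eq_false_iff_not]; omega⟩
  · intro hfin
    have h5 : Finite Y := by
      have : Finite (Cardinal.cantorFunction (1 / 3) '' Y) := hfin.to_subtype
      exact Finite.of_equiv _ eY.toEquiv.symm
    have h6 : ((hyperfilter ℕ : Ultrafilter ℕ) : Filter ℕ) ≤ atTop := by
      rw [← Nat.cofinite_eq_atTop]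
      exact hyperfilter_le_cofinite
    -- a finite set is Menger along every ultrafilter
    have h7 : UMengerSp (hyperfilter ℕ) (ULift Y) := UMengerSp.of_finite _ _
    have h8 := (h1 _ h6 (ULift Y) h7).menger
    exact h3 (menger_of_surjective h8 ((Homeomorph.refl X).prodCongr Homeomorph.ulift)
      ((Homeomorph.refl X).prodCongr Homeomorph.ulift).continuous
      ((Homeomorph.refl X).prodCongr Homeomorph.ulift).surjective)
  · exact h2.of_surjective eY eY.continuous eY.surjective
  · intro h5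
    apply h3
    exact menger_of_surjective h5 (eX.prodCongr eY).symm (eX.prodCongr eY).symm.continuous
      (eX.prodCongr eY).symm.surjective

end Pool.Agent.H735.PU
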