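import Pool.Graph.R_pool_sql_team_seeded_b677cdb8.E8helper73.Sch.Reals

/-!
A sufficient condition for a subset of the Cantor space to be productively Menger along an
ultrafilter.
-/

namespace Pool.Agent.H735.PU

open Set Filter Pool.Agent.H752R3 Pool.Agent.E8helper73.Sch

/-- The Menger property along an ultrafilter. -/
def UMengerSp (U : Ultrafilter ℕ) (Z : Type*) [TopologicalSpace Z] : Prop :=
  ∀ C : ℕ → Set (Set Z), (∀ n, (∀ u ∈ C n, IsOpen u) ∧ ⋃₀ C n = Set.univ) →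
    ∃ F : ℕ → Set (Set Z), (∀ n, F n ⊆ C n ∧ (F n).Finite) ∧ ∀ z, {n | z ∈ ⋃₀ F n} ∈ U

theorem UMengerSp.of_surjective {U : Ultrafilter ℕ} {Z Z' : Type*} [TopologicalSpace Z]
    [TopologicalSpace Z'] (h : UMengerSp U Z) (g : Z → Z') (hg : Continuous g)
    (hs : Function.Surjective g) : UMengerSp U Z' := by
  intro C hC
  obtain ⟨F, hF1, hF2⟩ := h (fun n => (fun u => g ⁻¹' u) '' C n) (by
    intro n
    refine ⟨?_, ?_⟩
    · rintro _ ⟨u, hu, rfl⟩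
      exact ((hC n).1 u hu).preimage hg
    · rw [eq_univ_iff_forall]
      intro z
      have : g z ∈ ⋃₀ C n := by rw [(hC n).2]; trivial
      obtain ⟨u, hu, hz⟩ := this
      exact ⟨_, ⟨u, hu, rfl⟩, hz⟩)
  have h1 := fun n => exists_finite_lift g (hF1 n).1 (hF1 n).2
  choose G hG1 hG2 hG3 using h1
  refine ⟨G, fun n => ⟨hG1 n, hG2 n⟩, ?_⟩
  intro z
  obtain ⟨z, rfl⟩ := hs z
  filter_upwards [hF2 z] with n hn
  obtain ⟨v, hv, hzv⟩ := hn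
  rw [← hG3 n] at hv
  obtain ⟨u, hu, rfl⟩ := hv
  exact ⟨u, hu, hzv⟩

/-- Slices. -/
theorem UMengerSp.slice {U : Ultrafilter ℕ} {X Y : Type*} [TopologicalSpace X]
    [TopologicalSpace Y] (hY : UMengerSp U Y) (x : X)
    (C : ℕ → Set (Set (X × Y))) (hC : ∀ n, (∀ u ∈ C n, IsOpen u) ∧ ⋃₀ C n = Set.univ) :
    ∃ F : ℕ → Set (Set (X × Y)), (∀ n, F n ⊆ C n ∧ (F n).Finite) ∧
      ∀ y, {n | (x, y) ∈ ⋃₀ F n} ∈ U := by
  obtain ⟨F, hF1, hF2⟩ := hY (fun n => (fun u : Set (X × Y) => (fun y => (x, y)) ⁻¹' u) '' C n)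
    (by
      intro n
      refine ⟨?_, ?_⟩
      · rintro _ ⟨u, hu, rfl⟩
        exact ((hC n).1 u hu).preimage (Continuous.prodMk_right x)
      · rw [eq_univ_iff_forall]
        intro y
        have : (x, y) ∈ ⋃₀ C n := by rw [(hC n).2]; trivial
        obtain ⟨u, hu, hxy⟩ := this
        exact ⟨_, ⟨u, hu, rfl⟩, hxy⟩)
  have h1 := fun n => exists_finite_lift (fun y : Y => ((x, y) : X × Y)) (hF1 n).1 (hF1 n).2
  choose G hG1 hG2 hG3 using h1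
  refine ⟨G, fun n => ⟨hG1 n, hG2 n⟩, fun y => ?_⟩
  filter_upwards [hF2 y] with n hn
  obtain ⟨v, hv, hyv⟩ := hn
  rw [← hG3 n] at hv
  obtain ⟨u, hu, rfl⟩ := hv
  exact ⟨u, hu, hyv⟩

theorem exists_agree {A : Set (ℕ → Bool)} (hA : IsOpen A) {a : ℕ → Bool} (ha : a ∈ A) :
    ∃ L, ∀ y : ℕ → Bool, (∀ n < L, y n = a n) → y ∈ A := by
  rw [isOpen_pi_iff] at hA
  obtain ⟨I, u, hu, hsub⟩ := hA a ha
  refine ⟨I.sup id + 1, fun y hy => hsub ?_⟩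
  intro i hi
  have : i < I.sup id + 1 := Nat.lt_succ_of_le (Finset.le_sup (f := id) hi)
  rw [hy i this]
  exact (hu i hi).2

/-- The derived covers of the second factor. -/
theorem exists_tube_fin {X : Set (ℕ → Bool)} (hfin : ∀ z : ℕ → Bool, FinSupp z → z ∈ X)
    {Y : Type*} [TopologicalSpace Y] (C : Set (Set (X × Y))) (hC : ∀ u ∈ C, IsOpen u)
    (hcov : ⋃₀ C = Set.univ) (k : ℕ) (y : Y) :
    ∃ (V : Set Y) (b : ℕ) (G : Set (Set (X × Y))), IsOpen V ∧ y ∈ V ∧ G ⊆ C ∧ G.Finite ∧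
      ∀ w : X, (∀ j < b, w.1 j = true → j < k) → ∀ y' ∈ V, (w, y') ∈ ⋃₀ G := by
  classical
  let z : (Fin k → Bool) → X := fun s => ⟨extB k s, hfin _ (finSupp_extB _ _)⟩
  have h1 : ∀ s, ∃ (L : ℕ) (V : Set Y) (u : Set (X × Y)), u ∈ C ∧ IsOpen V ∧ y ∈ V ∧
      ∀ w : X, (∀ n < L, w.1 n = (z s).1 n) → ∀ y' ∈ V, (w, y') ∈ u := by
    intro s
    have hmem : (z s, y) ∈ ⋃₀ C := by rw [hcov]; trivial
    obtain ⟨u, hu, hzu⟩ := hmem
    obtain ⟨A, V, hA, hV, hzA, hyV, hsub⟩ := isOpen_prod_iff.1 (hC u hu) _ _ hzu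
    obtain ⟨A', hA', rfl⟩ := isOpen_induced_iff.1 hA
    obtain ⟨L, hL⟩ := exists_agree hA' hzA
    exact ⟨L, V, u, hu, hV, hyV, fun w hw y' hy' => hsub ⟨hL w.1 hw, hy'⟩⟩
  choose L V u hu hV hyV hLV using h1
  refine ⟨⋂ s, V s, Finset.univ.sup L, range u, isOpen_iInter_of_finite hV,
    mem_iInter.2 hyV, ?_, Set.finite_range _, ?_⟩
  · rintro _ ⟨s, rfl⟩
    exact hu s
  · intro w hw y' hy'
    let s : Fin k → Bool := fun m => w.1 m
    refine ⟨u s, ⟨s, rfl⟩, hLV s w ?_ y' (mem_iInter.1 hy' s)⟩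
    intro n hn
    by_cases hnk : n < k
    · simp [z, s, extB, hnk]
    · have h2 : n < Finset.univ.sup L := lt_of_lt_of_le hn
        (Finset.le_sup (f := L) (Finset.mem_univ s))
      have h3 : w.1 n ≠ true := fun h => hnk (hw n h2 h)
      simp only [z, extB, dif_neg hnk]
      simpa using h3

/-- **The criterion.** -/
theorem productively_UMenger (U : Ultrafilter ℕ) (hU : (U : Filter ℕ) ≤ atTop)
    (X : Set (ℕ → Bool)) (hfin : ∀ z : ℕ → Bool, FinSupp z → z ∈ X)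
    (hX : ∃ ν : ℕ → ℕ, ∀ c : ℕ → ℕ,
      {x : ℕ → Bool | x ∈ X ∧ ¬ {n | ∀ j < c n, x j = true → j < ν n} ∈ U}.Countable)
    (Y : Type*) [TopologicalSpace Y] (hY : UMengerSp U Y) : UMengerSp U (X × Y) := by
  classical
  intro C hC
  obtain ⟨ν, hν⟩ := hX
  let W : ℕ → Set (Set Y) := fun n => {V | IsOpen V ∧ ∃ b : ℕ, ∃ G : Set (Set (X × Y)),
    G ⊆ C n ∧ G.Finite ∧ ∀ w : X, (∀ j < b, w.1 j = true → j < ν n) → ∀ y ∈ V, (w, y) ∈ ⋃₀ G}
  have hW : ∀ n, (∀ V ∈ W n, IsOpen V) ∧ ⋃₀ W n = Set.univ := by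
    intro n
    refine ⟨fun V hV => hV.1, ?_⟩
    rw [eq_univ_iff_forall]
    intro y
    obtain ⟨V, b, G, hV, hyV, hG1, hG2, hG3⟩ := exists_tube_fin hfin (C n) (hC n).1 (hC n).2
      (ν n) y
    exact ⟨V, ⟨hV, b, G, hG1, hG2, hG3⟩, hyV⟩
  obtain ⟨G, hG1, hG2⟩ := hY W hW
  have h2 : ∀ n, ∃ (b : ℕ) (H : Set (Set (X × Y))), H ⊆ C n ∧ H.Finite ∧
      ∀ w : X, (∀ j < b, w.1 j = true → j < ν n) → ∀ y ∈ ⋃₀ G n, (w, y) ∈ ⋃₀ H := by
    intro n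
    have h3 : ∀ V : G n, ∃ b : ℕ, ∃ H : Set (Set (X × Y)), H ⊆ C n ∧ H.Finite ∧
      ∀ w : X, (∀ j < b, w.1 j = true → j < ν n) → ∀ y ∈ (V : Set Y), (w, y) ∈ ⋃₀ H :=
      fun V => ((hG1 n).1 V.2).2
    choose b H hH1 hH2 hH3 using h3
    have : Finite (G n) := (hG1 n).2.to_subtype
    have := Fintype.ofFinite (G n)
    refine ⟨Finset.univ.sup b, ⋃ V, H V, iUnion_subset hH1, Set.finite_iUnion hH2, ?_⟩
    rintro w hw y ⟨V, hV, hyV⟩
    obtain ⟨v, hv, hv'⟩ := hH3 ⟨V, hV⟩ w (fun j hj => hw j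
      (lt_of_lt_of_le hj (Finset.le_sup (f := b) (Finset.mem_univ _)))) y hyV
    exact ⟨v, mem_iUnion.2 ⟨⟨V, hV⟩, hv⟩, hv'⟩
  choose b H hH1 hH2 hH3 using h2
  -- the exceptional points
  let E : Set X := {x | ¬ {n | ∀ j < b n, x.1 j = true → j < ν n} ∈ U}
  have hE : E.Countable := by
    have : E = Subtype.val ⁻¹' {x : ℕ → Bool | x ∈ X ∧
        ¬ {n | ∀ j < b n, x j = true → j < ν n} ∈ U} := by
      ext x
      simp [E]
    rw [this]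
    exact (hν b).preimage Subtype.val_injective
  have hx0 : (⟨fun _ => false, hfin _ ⟨0, fun _ _ => rfl⟩⟩ : X) ∈ insert
      (⟨fun _ => false, hfin _ ⟨0, fun _ _ => rfl⟩⟩ : X) E := Set.mem_insert _ _
  obtain ⟨t, ht⟩ := (hE.insert _).exists_eq_range ⟨_, hx0⟩
  choose S hS1 hS2 using fun i => hY.slice (t i) C hC
  refine ⟨fun n => H n ∪ ⋃ i ∈ Finset.range (n + 1), S i n, fun n => ⟨?_, ?_⟩, ?_⟩
  · exact union_subset (hH1 n) (iUnion₂_subset fun i _ => (hS1 i n).1)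
  · exact (hH2 n).union (Set.Finite.biUnion (Finset.finite_toSet _) fun i _ => (hS1 i n).2)
  · rintro ⟨x, y⟩
    by_cases hx : x ∈ E
    · have : x ∈ insert (⟨fun _ => false, hfin _ ⟨0, fun _ _ => rfl⟩⟩ : X) E :=
        Set.mem_insert_of_mem _ hx
      rw [ht] at this
      obtain ⟨i, rfl⟩ := this
      have h4 : {n | i ≤ n} ∈ U := hU (eventually_ge_atTop i)
      filter_upwards [hS2 i y, h4] with n hn1 hn2
      obtain ⟨v, hv, hv'⟩ := hn1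
      exact ⟨v, Or.inr (mem_iUnion₂.2 ⟨i, Finset.mem_range.2 (Nat.lt_succ_of_le hn2), hv⟩), hv'⟩
    · have h5 : {n | ∀ j < b n, x.1 j = true → j < ν n} ∈ U := not_not.1 hx
      filter_upwards [h5, hG2 y] with n hn1 hn2
      obtain ⟨v, hv, hv'⟩ := hH3 n x hn1 y hn2
      exact ⟨v, Or.inl hv, hv'⟩

end Pool.Agent.H735.PU
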