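import Pool.Agent.H735.PU.Step
import Pool.Agent.H735.PU.Crit
import Pool.Agent.H735.PU.Points
import Pool.Agent.H735.PU.UProd

/-!
The two sets of reals.
-/

namespace Pool.Agent.H735.PU

open Set Filter Cardinal Pool.Agent.H752R3 Pool.Agent.E8helper73.Sch

/-- Characteristic functions. -/
noncomputable def ch (S : Set ℕ) : ℕ → Bool := by classical exact fun j => decide (j ∈ S)

theorem ch_eq_true {S : Set ℕ} {j : ℕ} : ch S j = true ↔ j ∈ S := by simp [ch]

/-- Codes of the restrictions. -/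
def code (r : ℕ → Bool) (n : ℕ) : ℕ := Nat.ofBits (fun i : Fin n => r i)

theorem code_lt (r : ℕ → Bool) (n : ℕ) : code r n < 2 ^ n := Nat.ofBits_lt_two_pow _

theorem code_ne {r r' : ℕ → Bool} (h : r ≠ r') : ∀ᶠ n in atTop, code r n ≠ code r' n := by
  obtain ⟨m, hm⟩ := Function.ne_iff.1 h
  filter_upwards [eventually_gt_atTop m] with n hn heq
  apply hm
  have h1 : (code r n).testBit m = r m := by
    unfold code
    rw [Nat.testBit_ofBits_lt _ _ hn]
  have h2 : (code r' n).testBit m = r' m := by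
    unfold code
    rw [Nat.testBit_ofBits_lt _ _ hn]
  rw [← h1, ← h2, heq]

theorem code_ne_zero {r : ℕ → Bool} (h : r 0 = true) : ∀ᶠ n in atTop, code r n ≠ 0 := by
  filter_upwards [eventually_gt_atTop 0] with n hn heq
  have h1 : (code r n).testBit 0 = r 0 := by
    unfold code
    rw [Nat.testBit_ofBits_lt _ _ hn]
  rw [heq, h] at h1
  simp at h1

/-- The enumeration and the codes. -/
theorem exists_setup (CH : (ℵ₁ : Cardinal.{0}) = 𝔠) :
    ∃ (e : Om → (ℕ → ℕ) × (ℕ → ℕ → List Bool)) (I : Om → ℕ → ℕ),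
      (∀ p, ∃ δ, ¬ IsMin δ ∧ e δ = p) ∧ (∀ ζ n, I ζ n < 2 ^ n) ∧
      (∀ ζ, ∀ᶠ n in atTop, I ζ n ≠ 0) ∧ (∀ ζ δ, ζ ≠ δ → ∀ᶠ n in atTop, I ζ n ≠ I δ n) := by
  classical
  obtain ⟨e, he⟩ := exists_surjection_omega1 CH
    (α := ((ℕ → ℕ) × (ℕ → ℕ → List Bool)) × Bool) (by simp)
  have hcard : Cardinal.mk Om = Cardinal.mk (ℕ → Bool) := by
    rw [Cardinal.mk_ord_toType, CH]
    simp
  obtain ⟨r⟩ := Cardinal.eq.1 hcard
  let r' : Om → ℕ → Bool := fun ζ n => Nat.casesOn n true (fun k => r ζ k)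
  refine ⟨fun δ => (e δ).1, fun ζ => code (r' ζ), ?_, fun ζ n => code_lt _ _,
    fun ζ => code_ne_zero rfl, ?_⟩
  · intro p
    obtain ⟨δ, hδ⟩ := he (p, true)
    obtain ⟨δ', hδ'⟩ := he (p, false)
    have hne : δ ≠ δ' := by
      rintro rfl
      rw [hδ] at hδ'
      exact Bool.noConfusion (congrArg Prod.snd hδ')
    by_cases h1 : IsMin δ
    · refine ⟨δ', fun h2 => hne ?_, congrArg Prod.fst hδ'⟩
      exact le_antisymm (h1.isBot δ') (h2.isBot δ)
    · exact ⟨δ, h1, congrArg Prod.fst hδ⟩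
  · intro ζ δ hne
    refine code_ne fun h => hne (r.injective ?_)
    ext n
    exact congrFun h (n + 1)

/-- The exclusive or of two points. -/
def xr (z w : ℕ → Bool) : ℕ → Bool := fun i => xor (z i) (w i)

theorem continuous_xr : Continuous fun z : (ℕ → Bool) × (ℕ → Bool) => xr z.1 z.2 := by
  apply continuous_pi
  intro i
  unfold xr
  have h1 : Continuous fun z : (ℕ → Bool) × (ℕ → Bool) => (z.1 i, z.2 i) :=
    ((continuous_apply i).comp continuous_fst).prodMk ((continuous_apply i).comp continuous_snd)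
  exact (continuous_of_discreteTopology (f := fun b : Bool × Bool => xor b.1 b.2)).comp h1

theorem exists_lt_cnt {z : ℕ → Bool} (h : ∀ N, ∃ j ≥ N, z j = true) (n : ℕ) :
    ∃ k, n < cnt k z := by
  by_contra hcon
  push Not at hcon
  obtain ⟨k, hk⟩ := finSupp_of_cnt hcon
  obtain ⟨j, hj, hj'⟩ := h k
  rw [hk j hj] at hj'
  exact Bool.noConfusion hj'

end Pool.Agent.H735.PU
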