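import Pool.Agent.H735.PU.Own

/-!
The recursion.
-/

namespace Pool.Agent.H735.PU

open Set Filter

variable {ι : Type}

theorem exists_monotone_bound (f : ℕ → ℕ → ℕ) :
    ∃ c : ℕ → ℕ, Monotone c ∧ (∀ n, n ≤ c n) ∧ ∀ i, ∀ᶠ n in atTop, f i n ≤ c n := by
  refine ⟨fun n => n + ∑ i ∈ Finset.range (n + 1), ∑ j ∈ Finset.range (n + 1), f i j,
    fun n m h => ?_, fun n => Nat.le_add_right _ _, fun i => ?_⟩
  · show n + ∑ i ∈ Finset.range (n + 1), ∑ j ∈ Finset.range (n + 1), f i j ≤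
      m + ∑ i ∈ Finset.range (m + 1), ∑ j ∈ Finset.range (m + 1), f i j
    have h1 : Finset.range (n + 1) ⊆ Finset.range (m + 1) := Finset.range_mono (by omega)
    have h2 : ∑ i ∈ Finset.range (n + 1), ∑ j ∈ Finset.range (n + 1), f i j ≤
        ∑ i ∈ Finset.range (m + 1), ∑ j ∈ Finset.range (m + 1), f i j :=
      (Finset.sum_le_sum fun i _ => Finset.sum_le_sum_of_subset h1).trans
        (Finset.sum_le_sum_of_subset h1)
    omega
  · filter_upwards [eventually_ge_atTop i] with n hn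
    have h1 : f i n ≤ ∑ j ∈ Finset.range (n + 1), f i j :=
      Finset.single_le_sum (f := fun j => f i j) (fun _ _ => Nat.zero_le _)
        (Finset.mem_range.2 (by omega))
    have h2 : ∑ j ∈ Finset.range (n + 1), f i j ≤
        ∑ i ∈ Finset.range (n + 1), ∑ j ∈ Finset.range (n + 1), f i j :=
      Finset.single_le_sum (f := fun i => ∑ j ∈ Finset.range (n + 1), f i j)
        (fun _ _ => Nat.zero_le _) (Finset.mem_range.2 (by omega))
    omega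

variable [LinearOrder ι]

/-- The families of later stages are unbounded. -/
theorem unbounded_F {I : ι → ℕ → ℕ} {e : ι → (ℕ → ℕ) × (ℕ → ℕ → List Bool)} {ζ : ι}
    {D : ι → Data ι} (hζ : Self I e ζ (D ζ) ∧ ∀ ξ < ζ, Rel I ξ (D ξ) (D ζ)) (hmin : ¬ IsMin ζ)
    (N : ℕ) : ∃ h ∈ (D ζ).F, N ≤ h.2.a := by
  rw [not_isMin_iff] at hmin
  obtain ⟨ξ, hξ⟩ := hmin
  obtain ⟨k, hk1, hk2⟩ := (hζ.2 ξ hξ).inf N
  exact ⟨_, hk1, hk2⟩

omit [LinearOrder ι] in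
theorem infinite_UU {F : Set (ι × Hull)} (hok : ∀ h ∈ F, h.2.Ok)
    (hub : ∀ N, ∃ h ∈ F, N ≤ h.2.a) (hne : ∀ h ∈ F, ∀ i, (h.2.pat i).Nonempty) (J : ℕ → ℕ)
    (n : ℕ) : ∃ j ∈ UU F J, n ≤ j := by
  obtain ⟨h, hh, hn⟩ := hub n
  obtain ⟨j, hj⟩ := hne h hh (J h.2.a)
  exact ⟨j, ⟨h, hh, hj⟩, hn.trans (Hull.a_le_of_pat (hok h hh) hj)⟩

theorem infinite_three {I : ι → ℕ → ℕ} {e : ι → (ℕ → ℕ) × (ℕ → ℕ → List Bool)} {ζ : ι}
    {D : ι → Data ι} (hζ : Self I e ζ (D ζ) ∧ ∀ ξ < ζ, Rel I ξ (D ξ) (D ζ)) (hmin : ¬ IsMin ζ)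
    (n : ℕ) : (∃ j ∈ xx I ζ (D ζ), n ≤ j) ∧ (∃ j ∈ yy I ζ (D ζ), n ≤ j) ∧
      ∃ j ∈ (D ζ).w, n ≤ j := by
  have h1 := infinite_UU hζ.1.ok (unbounded_F hζ hmin) hζ.1.neF (I ζ) n
  refine ⟨h1, ?_, ?_⟩
  · obtain ⟨j, hj, hnj⟩ := h1
    exact ⟨j, Or.inl hj, hnj⟩
  · obtain ⟨m, hm⟩ := hζ.1.w_eq
    obtain ⟨j, hj, hnj⟩ := infinite_UU hζ.1.ok (unbounded_F hζ hmin) hζ.1.neF (fun _ => 0)
      (max n m)
    rw [← hζ.1.Z_eq hmin] at hj
    exact ⟨j, (hm j ((le_max_right _ _).trans hnj)).2 hj, (le_max_left _ _).trans hnj⟩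

theorem step {I : ι → ℕ → ℕ} (hI : ∀ ζ, ∀ᶠ n in atTop, I ζ n ≠ 0)
    {e : ι → (ℕ → ℕ) × (ℕ → ℕ → List Bool)}
    (hcount : ∀ δ : ι, (Set.Iio δ).Countable) (δ : ι) (D : ι → Data ι)
    (hD : ∀ ξ < δ, Self I e ξ (D ξ) ∧ ∀ ζ < ξ, Rel I ζ (D ζ) (D ξ)) :
    ∃ d, Self I e δ d ∧ ∀ ζ < δ, Rel I ζ (D ζ) d := by
  classical
  by_cases hmin : IsMin δ
  · refine ⟨⟨id, ∅, Set.univ, fun k i => k + i, Set.univ⟩, ?_, fun ζ hζ => absurd hζ
      hmin.not_lt⟩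
    refine ⟨monotone_id, fun n => le_rfl, fun h hh => absurd hh (notMem_empty _),
      fun h hh => absurd hh (notMem_empty _), fun h hh => absurd hh (notMem_empty _),
      fun k i j hij => ?_, fun k => ?_, fun k i => ?_, fun h hh => absurd hh (notMem_empty _),
      ⟨0, fun k _ => ⟨fun i _ => ?_, ?_⟩⟩, fun h => absurd hmin h, ⟨0, fun j _ => Iff.rfl⟩,
      fun h => absurd hmin h, fun h => absurd hmin h⟩
    · show k + i < k + j
      omega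
    · show k ≤ k + 0
      omega
    · exact ⟨k + i, le_rfl, Nat.lt_succ_self _, trivial⟩
    · rintro n m - hm ⟨j, -, h1, h2⟩
      have : m ≤ n := hm
      omega
    · rintro i - i' - - n ⟨j, -, h1, h2⟩ -
      have : j < n := h2
      omega
  · have hne : (Set.Iio δ).Nonempty := by
      rw [not_isMin_iff] at hmin
      exact hmin
    obtain ⟨t, ht0⟩ := (hcount δ).exists_eq_range hne
    have ht : ∀ i, t i < δ := fun i => by
      have : t i ∈ Set.Iio δ := by rw [ht0]; exact ⟨i, rfl⟩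
      exact this
    have hts : ∀ ξ < δ, ∃ i, t i = ξ := fun ξ hξ => by
      have : ξ ∈ Set.Iio δ := hξ
      rw [ht0] at this
      exact this
    -- the functions to be bounded
    have hf : ∀ i, ∃ f : ℕ → ℕ, ∀ n, (D (t i)).c n ≤ f n ∧ (¬ IsMin (t i) →
        (∃ j ∈ xx I (t i) (D (t i)), n ≤ j ∧ j < f n) ∧
        (∃ j ∈ yy I (t i) (D (t i)), n ≤ j ∧ j < f n) ∧
        ∃ j ∈ (D (t i)).w, n ≤ j ∧ j < f n) := by
      intro i
      by_cases hm : IsMin (t i)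
      · exact ⟨(D (t i)).c, fun n => ⟨le_rfl, fun h => absurd hm h⟩⟩
      · have h1 := infinite_three (hD (t i) (ht i)) hm
        choose f1 h2 using fun n => (h1 n).1
        choose f2 h3 using fun n => (h1 n).2.1
        choose f3 h4 using fun n => (h1 n).2.2
        refine ⟨fun n => (D (t i)).c n + f1 n + f2 n + f3 n + 1, fun n => ⟨?_, fun _ =>
          ⟨⟨f1 n, (h2 n).1, (h2 n).2, ?_⟩, ⟨f2 n, (h3 n).1, (h3 n).2, ?_⟩,
            ⟨f3 n, (h4 n).1, (h4 n).2, ?_⟩⟩⟩⟩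
        all_goals
          beta_reduce
          omega
    choose f hf using hf
    obtain ⟨c, hmono, hle, hc⟩ := exists_monotone_bound
      (fun i => Nat.casesOn i (e δ).1 (fun i => f i))
    have hce : ∀ᶠ n in atTop, (e δ).1 n ≤ c n := hc 0
    have hcf : ∀ i, ∀ᶠ n in atTop, f i n ≤ c n := fun i => hc (i + 1)
    obtain ⟨F, hFlt, hok, hap, hneF, hFne, hFr⟩ := exists_family hD ht hts hmono hle
    have hub : ∀ N, ∃ h ∈ F, N ≤ h.2.a := by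
      intro N
      obtain ⟨ξ, hξ⟩ := hne
      obtain ⟨k, hk1, hk2⟩ := (hFr ξ hξ).2.1 N
      exact ⟨_, hk1, hk2⟩
    let Z := UU F (fun _ => 0)
    -- the division points, the point `w` and the dichotomy
    obtain ⟨w, M, hw, hkM, hMlt, hcut, hMne, hdich⟩ : ∃ (w : Set ℕ) (M : ℕ → ℕ → ℕ),
        (∃ m, ∀ j, m ≤ j → (j ∈ w ↔ j ∈ Z)) ∧ (∀ k, k ≤ M k 0) ∧ (∀ k i, M k i < M k (i + 1)) ∧
        (∀ k i, NoCut F (M k i)) ∧ (∀ k i, ∃ j ∈ Z, M k i ≤ j ∧ j < M k (i + 1)) ∧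
        ((∃ n, ∀ j, w ∉ Cyl ((e δ).2 n j)) ∨
        ∃ g : ℕ → ℕ, ∀ k, ∀ i < 2 ^ M k 0, ∀ S : Set ℕ,
          (∀ j, M k i ≤ j → j < M k (i + 1) → (j ∈ S ↔ j ∈ Z)) →
          ∃ j < g k, S ∈ Cyl ((e δ).2 k j)) := by
      rcases dichotomy Z (e δ).2 with ⟨s, m, n, hsmn⟩ | ⟨R, g, hRg⟩
      · obtain ⟨M, h1, h2, -, h3, h4⟩ := exists_division hle hap hok hub hneF (fun _ _ => 0)
        refine ⟨glue s m Z, M, ⟨m, fun j hj => ?_⟩, h1, h2, h3, h4, Or.inl ⟨n, hsmn⟩⟩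
        constructor
        · rintro (⟨h5, -⟩ | ⟨-, h5⟩)
          · omega
          · exact h5
        · intro h5
          exact Or.inr ⟨hj, h5⟩
      · obtain ⟨M, h1, h2, h5, h3, h4⟩ := exists_division hle hap hok hub hneF R
        refine ⟨Z, M, ⟨0, fun j _ => Iff.rfl⟩, h1, h2, h3, h4, Or.inr
          ⟨fun k => (Finset.range (2 ^ M k 0)).sup (fun i => g k (M k i)), fun k i hi S hS => ?_⟩⟩
        obtain ⟨j, hj, hSj⟩ := hRg k (M k i) S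
          (fun j hj1 hj2 => hS j hj1 (lt_of_lt_of_le hj2 (h5 k i)))
        exact ⟨j, lt_of_lt_of_le hj (Finset.le_sup (f := fun i => g k (M k i))
          (Finset.mem_range.2 hi)), hSj⟩
    have hMk : ∀ k, StrictMono (M k) := fun k => strictMono_nat_of_lt_succ (hMlt k)
    refine ⟨⟨c, F, Z, M, w⟩, ⟨hmono, hle, hFlt, hok, hap, hMk, hkM, fun k i => ?_, hneF, ?_,
      fun _ => rfl, hw, fun _ => ?_, fun _ => hce⟩, fun ζ hζ => ?_⟩
    · obtain ⟨j, hj, h1, h2⟩ := hMne k i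
      exact ⟨j, h1, h2, hj⟩
    · exact good_own (d := ⟨c, F, Z, M, w⟩) hmono hle hap hok hub hmono
        (Eventually.of_forall fun _ => le_rfl) ⟨0, fun h hh _ _ => hh⟩
        ⟨0, fun h hh _ h1 => absurd (hFlt h hh) (not_lt.2 h1)⟩ (hI δ) hMlt hcut
    · rcases hdich with h | ⟨g, hg⟩
      · exact Or.inl h
      · refine Or.inr ⟨g, fun k i hi S hS => hg k i hi S fun j hj1 hj2 => ?_⟩
        have h1 : M k 0 ≤ M k i := (hMk k).monotone (Nat.zero_le _)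
        have h2 : M k (i + 1) ≤ M k (2 ^ M k 0) := (hMk k).monotone hi
        rw [hS j (h1.trans hj1) (lt_of_lt_of_le hj2 h2)]
        exact ⟨fun h => h.2.2, fun h => ⟨hj1, hj2, h⟩⟩
    · obtain ⟨i, rfl⟩ := hts ζ hζ
      obtain ⟨r1, r2, r3, r4⟩ := hFr _ hζ
      refine ⟨?_, r1, r2, r3, r4, ?_, fun hm => ?_, fun hm => ?_, fun hm => ?_⟩
      · filter_upwards [hcf i] with n hn
        exact ((hf i n).1).trans hn
      · exact good_own hmono hle hap hok hub (hD _ hζ).1.mono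
          (by filter_upwards [hcf i] with n hn; exact ((hf i n).1).trans hn) r3 r4 (hI _) hMlt hcut
      · filter_upwards [hcf i] with n hn
        obtain ⟨j, h1, h2, h3⟩ := ((hf i n).2 hm).1
        exact ⟨j, h1, h2, lt_of_lt_of_le h3 hn⟩
      · filter_upwards [hcf i] with n hn
        obtain ⟨j, h1, h2, h3⟩ := ((hf i n).2 hm).2.1
        exact ⟨j, h1, h2, lt_of_lt_of_le h3 hn⟩
      · filter_upwards [hcf i] with n hn
        obtain ⟨j, h1, h2, h3⟩ := ((hf i n).2 hm).2.2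
        exact ⟨j, h1, h2, lt_of_lt_of_le h3 hn⟩

/-- **The structure.** -/
theorem exists_stages [WellFoundedLT ι] {I : ι → ℕ → ℕ} (hI : ∀ ζ, ∀ᶠ n in atTop, I ζ n ≠ 0)
    (e : ι → (ℕ → ℕ) × (ℕ → ℕ → List Bool))
    (hcount : ∀ δ : ι, (Set.Iio δ).Countable) :
    ∃ D : ι → Data ι, ∀ δ, Self I e δ (D δ) ∧ ∀ ζ < δ, Rel I ζ (D ζ) (D δ) := by
  have : Nonempty (Data ι) := ⟨⟨id, ∅, ∅, fun _ _ => 0, ∅⟩⟩
  exact exists_pairwise_rec (Self I e) (fun ζ _ d e => Rel I ζ d e)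
    (fun δ D hD => step hI hcount δ D hD)

end Pool.Agent.H735.PU
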